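import Mathlib
import Pool.Agent.RAC.Stmts
import Pool.Agent.ACC.Main

/-!
# Deterministic and nondeterministic machines with a large cache: statements

Architect: helper21 (project ACX, MP_ad5e8e_lc, new version of the hand-in AccessCost of helper44).

MAIN THEOREM (`S_MAIN`). As `Pool.Agent.ACC.main_bound`, but with `2 ^ (s ^ (1 - ε))` states, registers
of `g` words, and `s ^ (1 - ε)` words in the cheap registers.

Every module proves one theorem `t_XXX : S_XXX` or `t_XXX (h : S_YYY) ... : S_XXX`. The complete paper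
proof is in the comment at the statement. Namespace `Pool.Agent.ACX`; prefix helper lemmas by the name
of the module.
-/

set_option autoImplicit false
set_option linter.unusedVariables false

namespace Pool.Agent.ACX

open Finset Equiv Pool.Agent.TS
open Pool.Agent.RAC (Simp Sparse edg ES S_EXP)
open Pool.Agent.ACC (FM accSet Pt inc recSpace)

/-- MAIN THEOREM. Module PRC (about 250 lines; assumes `S_BND`, stated below).
PROOF. Copy `price_aux`, `main_bound` of `Pool/Agent/ACC/Main.lean`. Use `S_BND` for `κ`, `ε / 2` and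
put `c = min (c₁ * min η (1 / 2)) (1 / (2 * C₁))`. Let `P a := f a < φ * g`; the machine
`ACC.sim P M` has states `Q × ({a // P a} → Γ)`, and the logarithm of their number is at most
`s ^ (1 - ε) (1 + κ log s) ≤ s ^ (1 - ε / 2)` for large `s` (`#{a // P a} * (κ g log s)`). Suppose
`T < c s μ`, `μ = min (log s) (log φ)`; as in `price_aux`, `0 ≤ T` (apply the bound with `F = 0`,
`Z = s ^ η`) and so `0 < μ`, `1 < φ`. Let `ψ = sqrt φ`, `F = ⌊T / (φ g)⌋₊` (`ACC.sim_far` with the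
price `φ g`), `Z = min (s ^ η) ψ`. Then `g F ≤ T / φ ≤ c s μ / φ ≤ 2 c s / ψ` (`μ ≤ log φ ≤ 2 ψ`), so
`C₁ Z g F ≤ 2 c C₁ s ≤ s` and `S_BND` gives `c₁ s log Z ≤ T`, where `log Z ≥ min η (1 / 2) μ`. -/
def S_MAIN : Prop :=
  ∀ (κ : ℕ) (ε : ℝ), 0 < ε → ∃ c : ℝ, 0 < c ∧ ∃ s₀ : ℕ, ∀ s : ℕ, s₀ ≤ s →
    ∃ (n : ℕ) (δ : Fin n → ℕ), 2 * n + ∑ v, δ v = 2 * s ∧
      ∀ (Q A Γ : Type) [Fintype Q] [Fintype A] [Fintype Γ] (M : ACC.Machine n Q A Γ) (g : ℕ)
        (f : A → ℝ) (φ T : ℝ), 1 ≤ g → (Fintype.card Q : ℝ) ≤ 2 ^ ((s : ℝ) ^ (1 - ε)) →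
        Fintype.card A ≤ s ^ κ → Fintype.card Γ ≤ s ^ (κ * g) → (∀ a, 0 ≤ f a) → 0 < φ →
        (Nat.card {a : A // f a < φ * g} : ℝ) * g ≤ (s : ℝ) ^ (1 - ε) →
        M.Recognises f T δ → c * s * min (Real.log s) (Real.log φ) ≤ T

/-- Module SEL (about 200 lines). A colouring of the time segments, a label `c` and many entries `p`
such that `p` is read (in the first family) only in segments of colour `true`, and its `c`-neighbour
(in the second family) only in segments of colour `false`.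
PROOF. Copy `exists_colouring` of `Pool/Agent/Lib_helper21/TS/Select.lean` (`card_colourings`,
`half_pow_ge` can be used as they are). Let `N = |J × U| |B| |C|`, `SX p = {j | p ∈ hX j}`,
`SY p c = {j | (p.1, σ c p.2) ∈ hY j}`. The sum over `χ` of the number of good pairs `(p, c)` is at
least `2^r ∑_{p, c} ((1/2)^(|SX p| + |SY p c|) - [not disjoint])`. By `half_pow_ge` the first part is at
least `2^r N / h`, since `∑_{p, c} |SX p| = |C| ∑_j |hX j|` and `∑_{p, c} |SY p c| = |C| ∑_j |hY j|`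
(for fixed `c` the map `p ↦ (p.1, σ c p.2)` is a bijection). The number of pairs `(p, c)` such that the
two sets are not disjoint is at most `∑_j ∑_{i : J × U} edg σ {b | (i, b) ∈ hX j} {b | (i, b) ∈ hY j}
≤ ∑_j ∑_i 4 max ≤ 4 ∑_j (|hX j| + |hY j|) ≤ 4 |J × U| |B| logb 2 h ≤ N / (2 h)` by the sparsity
(`M0 L ≤ |B|`). So some `χ` has at least `N / (2 h)` good pairs, and some label `c` at least
`|J × U| |B| / (2 h)` good `p`; take exactly the required number of them. -/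
def S_SEL : Prop :=
  ∀ (J B U C : Type) [Fintype J] [Fintype B] [Fintype U] [Fintype C] [DecidableEq J]
    [DecidableEq B] [DecidableEq U] [DecidableEq C] (σ : C → Perm B) (M0 L r : ℕ)
    (hX hY : Fin r → Finset ((J × U) × B)) (h : ℝ), Sparse σ M0 → M0 * L ≤ Fintype.card B →
    1 ≤ h → 8 * h * Real.logb 2 h ≤ Fintype.card C → 0 < Fintype.card C →
    (∀ j, (hX j).card ≤ L) → (∀ j, (hY j).card ≤ L) →
    ((∑ j, ((hX j).card + (hY j).card) : ℕ) : ℝ) ≤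
      Fintype.card (J × U) * Fintype.card B * Real.logb 2 h →
    ∃ (χ : Fin r → Bool) (c : C) (F : Finset ((J × U) × B)),
      F.card = ⌈(Fintype.card (J × U) * Fintype.card B : ℝ) / (2 * h)⌉₊ ∧
      (∀ p ∈ F, ∀ j, p ∈ hX j → χ j = true) ∧
      ∀ p ∈ F, ∀ j, (p.1, σ c p.2) ∈ hY j → χ j = false

open Classical in
/-- The `c`-neighbours of a set of entries. -/
noncomputable def shiftF {J B U C : Type} (σ : C → Perm B) (c : C) (F : Finset ((J × U) × B)) :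
    Finset ((J × U) × B) :=
  F.image fun p => (p.1, σ c p.2)

/-- Module REC (about 180 lines). A rectangle of triangle-free inputs is small.
PROOF. We may assume that `S1`, `S2` are not empty and `|U| > 0`. Let `F' = shiftF σ c F` (as many
elements as `F`), `p' = (p.1, σ c p.2)`. By `TS.card_le_prod_vals` and `TS.prod_cnt_le`,
`|S1| ≤ ∏_{p ∈ F} |vals π S1 p| / cnt F (p.1.1, p.2) * (exp |F| * |Gam F|)` (as in `TS.one_side`), and
the same for `S2` with `F'`; write the second product as a product over `p ∈ F`. All the quotients are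
at most `1` (`TS.vals_card_le`). Let `θ = |U| / (8 h)`. The number of `p ∈ F` with
`cnt F (p.1.1, p.2) < θ` is at most `|J × B| θ ≤ |F| / 4` (fiberwise over `J × B`, as in `TS.one_side`),
and the same for `F'`; so there are at least `|F| / 2` elements `p ∈ F` with both counts `≥ θ`. For such
a `p` no element of `vals π S1 p` is in relation `adj` with an element of `vals ρ S2 p'` (`TFree` at
`j = p.1.1`, `u = p.1.2`, `b = p.2`, `σ c b`), so the product of the two quotients is at most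
`ν |U|^2 / θ^2 = 64 h^2 ν ≤ 1`. Hence `|S1| |S2| ≤ (64 h^2 ν)^(|F| / 2) exp(2 |F|) |Gam F| |Gam F'|`. -/
def S_REC : Prop :=
  ∀ (J B U C : Type) [Fintype J] [Fintype B] [Fintype U] [Fintype C] [DecidableEq J]
    [DecidableEq B] [DecidableEq U] [DecidableEq C] (σ : C → Perm B) (adj : U → U → Prop)
    (ν h : ℝ), 0 < ν → 1 ≤ h → 64 * h ^ 2 * ν ≤ 1 →
    (∀ P L : Finset U, (∀ x ∈ P, ∀ y ∈ L, ¬ adj x y) →
      (P.card : ℝ) * L.card ≤ ν * (Fintype.card U) ^ 2) →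
    ∀ (c : C) (F : Finset ((J × U) × B)) (π ρ : J × B → Perm U)
      (S1 S2 : Finset (J × B → Perm U)),
      (Fintype.card (J × U) * Fintype.card B : ℝ) / (2 * h) ≤ F.card →
      S1 ⊆ Gam F → S2 ⊆ Gam (shiftF σ c F) →
      (∀ g1 ∈ S1, ∀ g2 ∈ S2,
        TFree (ES σ adj) (fun κ => π κ * g1 κ) (fun κ => ρ κ * g2 κ)) →
      (S1.card : ℝ) * S2.card ≤
        Real.exp (2 * F.card + F.card / 2 * Real.log (64 * h ^ 2 * ν)) *
          ((Gam F).card * (Gam (shiftF σ c F)).card)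

/-- Module CNT (about 200 lines; assumes `S_SEL`, `S_REC`). The number of the inputs accepted.
PROOF. Copy `accept_count` of `Pool/Agent/ACC/Core.lean`: instead of `exists_selection` use `S_SEL`
(`hits_card`, `seg_card_le` give `≤ L`), the data are `(states at the ends of the segments, χ, c, F,
records)`, `F1 = F`, `F2 = shiftF σ c F`, and `rect_small` is replaced by `S_REC`. -/
def S_CNT : Prop :=
  ∀ (J B U Q A Γ C : Type) [Fintype J] [Fintype B] [Fintype U] [DecidableEq J] [DecidableEq B]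
    [DecidableEq U] [Fintype Q] [Fintype A] [Fintype Γ] [Fintype C] [DecidableEq C]
    (σ : C → Perm B) (adj : U → U → Prop) (ν h : ℝ) (M0 L r T Fa m : ℕ) (M : FM J B U Q A Γ)
    (b : Bool), Sparse σ M0 → M0 * L ≤ Fintype.card B → 0 < L → T ≤ r * L → 0 < ν → 1 ≤ h →
    64 * h ^ 2 * ν ≤ 1 →
    (∀ P L : Finset U, (∀ x ∈ P, ∀ y ∈ L, ¬ adj x y) →
      (P.card : ℝ) * L.card ≤ ν * (Fintype.card U) ^ 2) →
    8 * h * Real.logb 2 h ≤ Fintype.card C → 0 < Fintype.card C →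
    (T : ℝ) ≤ Fintype.card (J × U) * Fintype.card B * Real.logb 2 h →
    m = ⌈(Fintype.card (J × U) * Fintype.card B : ℝ) / (2 * h)⌉₊ →
    (∀ z : Inp J B U, (∃ q w, M.Run T z q w ∧ M.far b T q w ≤ Fa) →
      TFree (ES σ adj) z.1 z.2) →
    ((accSet M b T Fa).card : ℝ) ≤ (Fintype.card Q : ℝ) ^ r * 2 ^ r * Fintype.card C *
      ((Fintype.card ((J × U) × B)).choose m : ℝ) *
      ((T * ((T + 1) * (Fintype.card A * Fintype.card Γ)) + 1 : ℝ) ^ Fa) *
      (Real.exp (2 * m + m / 2 * Real.log (64 * h ^ 2 * ν)) * Fintype.card (Inp J B U))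

/-- Module INE (about 150 lines; assumes `S_CNT`). The inequality forced by a machine that accepts
exactly the triangle-free inputs.
PROOF. Copy `machine_ineq` of `Pool/Agent/ACC/Core.lean` with `S_CNT` instead of `accept_count`, for
`E = ES σ adj`, `D = |C| d1`. The hypotheses of `TS.tf_count`: `forb (ES σ adj) π κ u v` says that for
some `b`, `c` with `κ.2 = σ c b` the elements `π (κ.1, b) u` and `v` are in relation; `b` is
`(σ c).symm κ.2`, so for every label `c` there are at most `d1` such `v` (for given `u`), and at most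
`d1` such `u` (for given `v`). -/
def S_INE : Prop :=
  ∀ (J B U Q A Γ C : Type) [Fintype J] [Fintype B] [Fintype U] [DecidableEq J] [DecidableEq B]
    [DecidableEq U] [Fintype Q] [Fintype A] [Fintype Γ] [Fintype C] [DecidableEq C]
    (σ : C → Perm B) (adj : U → U → Prop) (ν h : ℝ) (M0 L r T Fa m d1 : ℕ) (M : FM J B U Q A Γ),
    (∀ y, ∀ [DecidablePred fun x => adj x y],
      ((Finset.univ : Finset U).filter fun x => adj x y).card ≤ d1) →
    (∀ x, ∀ [DecidablePred fun y => adj x y],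
      ((Finset.univ : Finset U).filter fun y => adj x y).card ≤ d1) →
    2 * (Fintype.card C * d1) ≤ Fintype.card U →
    Sparse σ M0 → M0 * L ≤ Fintype.card B → 0 < L → T ≤ r * L → 0 < ν → 1 ≤ h →
    64 * h ^ 2 * ν ≤ 1 →
    (∀ P L : Finset U, (∀ x ∈ P, ∀ y ∈ L, ¬ adj x y) →
      (P.card : ℝ) * L.card ≤ ν * (Fintype.card U) ^ 2) →
    8 * h * Real.logb 2 h ≤ Fintype.card C → 0 < Fintype.card C →
    (T : ℝ) ≤ Fintype.card (J × U) * Fintype.card B * Real.logb 2 h →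
    m = ⌈(Fintype.card (J × U) * Fintype.card B : ℝ) / (2 * h)⌉₊ →
    (∀ z : Inp J B U, (∃ T' ≤ T, ∃ b q w, M.Run T' z q w ∧ M.far b T' q w ≤ Fa) ↔
      TFree (ES σ adj) z.1 z.2) →
    (1 : ℝ) ≤ (Fintype.card U : ℝ) ^ (2 * (Fintype.card C * d1) * Fintype.card (J × B)) *
      ((2 * (T + 1)) * ((Fintype.card Q : ℝ) ^ r * 2 ^ r * Fintype.card C *
      ((Fintype.card ((J × U) × B)).choose m : ℝ) *
      ((T * ((T + 1) * (Fintype.card A * Fintype.card Γ)) + 1 : ℝ) ^ Fa) *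
      Real.exp (2 * m + m / 2 * Real.log (64 * h ^ 2 * ν))))

/-- Module NUM (about 250 lines; assumes `S_INE`). There is no machine: the numerical part.
PROOF. As `no_machine` in `Pool/Agent/ACC/Num.lean`. `J = Fin t`, `B = Fin m0 × ZMod D`, `C = ZMod D`,
`U = Pt p`, `adj = inc`, `d1 = p` (`card_lines` and its mirror image: for given `y` the `x` with
`x.2 = y.1 x.1 + y.2` are determined by `x.1`), `ν = 1 / p` (`inc_count`: `|P| |L| ≤ p ^ 3`),
`M0 = 3 D ^ 4`, `L = ⌈2 ^ 10 h ^ 2 S⌉₊ ≤ 2 ^ 11 h ^ 2 S`, `r = T / L + 1`. Put `N = t (m0 D) p ^ 2`,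
`lp = log p`; `m ≥ N / (2 h)`. Suppose `T ≤ N logb 2 h` (`≤ 2 h N`). The logarithms of the factors in
`S_INE` are at most
(a) `2 (D p) (t m0 D) log (p ^ 2) = 4 (D / p) N lp ≤ N lp / (64 h) ≤ m lp / 32` (`256 h D ≤ p`);
(b) `log (2 (T + 1)) ≤ log (N ^ 2) ≤ 4 sqrt N ≤ N / (64 h) ≤ m lp / 32` (`N ≥ p ^ 2 ≥ (2 ^ 24 h ^ 6) ^ 2`,
    note that `t ≥ 1`, and `m0 ≥ 1` by the hypothesis on `m0 D`);
(c) `r (log |Q| + log 2) ≤ 2 r S ≤ N / (128 h) ≤ m lp / 64` (`r L ≤ T + L ≤ 3 h N`, `L ≤ m0 D ≤ N`);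
(d) `log D ≤ lp ≤ m lp / 64` (`m ≥ N / (2 h) ≥ 64`);
(e) `log (N choose m) ≤ m (1 + log (2 h))` (`TS.choose_le_exp`);
(f) `Fa log (T ((T + 1) |A| |Γ|) + 1) ≤ 8 G Fa ≤ N lp / (64 h) ≤ m lp / 32` (as `rec_bound`);
(g) `2 m + (m / 2) (6 log 2 + 2 log h - lp)`.
The sum is at most `m (- 3 lp / 8 + 3 + 4 log 2 + 2 log h) < 0`, because
`lp ≥ 24 log 2 + 6 log h`; a contradiction to `S_INE`. -/
def S_NUM : Prop :=
  ∀ (t m0 D p : ℕ) [NeZero D] [Fact p.Prime] (σ : ZMod D → Perm (Fin m0 × ZMod D)) (h S G : ℝ)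
    (Fa T : ℕ) (Q A Γ : Type) [Fintype Q] [Fintype A] [Fintype Γ]
    (M : FM (Fin t) (Fin m0 × ZMod D) (Pt p) Q A Γ), 0 < t →
    Sparse σ (3 * D ^ 4) → 1 ≤ h → 1 ≤ S → 1 ≤ G → 16 * h ^ 2 ≤ D → 2 ^ 24 * h ^ 6 ≤ (p : ℝ) →
    256 * h * D ≤ p → 3 * (D : ℝ) ^ 4 * (2 ^ 11 * h ^ 2 * S) ≤ m0 * D →
    Real.log (t * (m0 * D) * p ^ 2) ≤ G →
    512 * h * G * Fa ≤ (t * (m0 * D) * p ^ 2) * Real.log p →
    Real.log (Fintype.card Q) ≤ S → Real.log (Fintype.card A) ≤ G →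
    Real.log (Fintype.card Γ) ≤ G →
    (∀ z : Inp (Fin t) (Fin m0 × ZMod D) (Pt p),
      (∃ T' ≤ T, ∃ b q w, M.Run T' z q w ∧ M.far b T' q w ≤ Fa) ↔
        TFree (ES σ inc) z.1 z.2) →
    (t * (m0 * D) * p ^ 2 : ℝ) * Real.logb 2 h < T

/-- Module BPM (about 120 lines; assumes `S_NUM`, `S_EXP`). The lower bound for given parameters.
PROOF. As `bound_params` in `Pool/Agent/ACC/Final.lean`, with the block graph `σ` of `S_EXP` and
`E = ES σ inc`. The number of the pairs in relation is at most `(m0 D) p ^ 2 (D p)` (for given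
`x = (b, u)` and a label `c` there are `p` elements `v` with `inc u v`), which is at most
`t (m0 D) p ^ 2`. -/
def S_BPM : Prop :=
  ∀ (t m0 D p : ℕ) [NeZero D] [Fact p.Prime] (s : ℕ), 0 < t → 0 < m0 → D * p ≤ t →
    6 * (t * (m0 * D) * p ^ 2) ≤ s →
    ∃ (n : ℕ) (δ : Fin n → ℕ), 2 * n + ∑ v, δ v = 2 * s ∧
      ∀ (h S G : ℝ) (Fa : ℕ), 1 ≤ h → 1 ≤ S → 1 ≤ G → 16 * h ^ 2 ≤ D → 2 ^ 24 * h ^ 6 ≤ (p : ℝ) →
        256 * h * D ≤ p → 3 * (D : ℝ) ^ 4 * (2 ^ 11 * h ^ 2 * S) ≤ m0 * D →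
        Real.log (t * (m0 * D) * p ^ 2) ≤ G →
        512 * h * G * Fa ≤ (t * (m0 * D) * p ^ 2) * Real.log p →
      ∀ (Q A Γ : Type) [Fintype Q] [Fintype A] [Fintype Γ] (M : ACC.Machine n Q A Γ) (T : ℕ),
        Real.log (Fintype.card Q) ≤ S → Real.log (Fintype.card A) ≤ G →
        Real.log (Fintype.card Γ) ≤ G →
        (∀ H : SimpleGraph (Fin n), (∀ v, (adjList H v).length = δ v) →
          (M.Accepts T Fa H ↔ H.CliqueFree 3)) →
        (t * (m0 * D) * p ^ 2 : ℝ) * Real.logb 2 h < T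

/-- Module BND (about 250 lines; assumes `S_BPM`). The choice of the parameters.
PROOF. We may assume `ε ≤ 1` (otherwise replace it by `1`). Let `x = s ^ (ε / 20)`, `k = ⌊x⌋₊`,
`D = k`, `p` a prime with `k ^ 3 < p ≤ 2 k ^ 3`, `t = D p`, `m0 = s / (6 t D p ^ 2)`,
`N = t (m0 D) p ^ 2`; for large `s` we have `k ≤ x ≤ 2 k`, `x ^ 20 = s ^ ε ≤ s`,
`6 t D p ^ 2 = 6 k ^ 2 p ^ 3 ≤ 48 k ^ 11 ≤ s`, `m0 ≥ 1`, `6 N ≤ s ≤ 12 N`. Take `η = ε / 200`,
`h = Z ≤ x ^ (1 / 10)`, `S = s ^ (1 - ε)`, `G = (κ + 1) g log s`, `c₁ = 1 / 12`,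
`C₁ = 512 * 120 * (κ + 1) / ε`. For large `s`: `16 Z ^ 2 ≤ k`, `2 ^ 24 Z ^ 6 ≤ k ^ 3 ≤ p`,
`256 Z k ≤ k ^ 3 ≤ p`; `m0 k ≥ s / (12 t p ^ 2) = s / (12 k p ^ 3) ≥ s / (96 k ^ 10)` and
`3 k ^ 4 2 ^ 11 Z ^ 2 S ≤ s / (96 k ^ 10)`, because `2 ^ 20 k ^ 14 Z ^ 2 ≤ x ^ 20 = s ^ ε`;
`log N ≤ log s ≤ G`; `log p ≥ 3 log k ≥ 3 log x - 3 log 2 ≥ (ε / 10) log s`, and so
`512 Z G F ≤ (s / 12) (ε / 10) log s ≤ N log p` by `C₁ Z g F ≤ s`. Then
`c₁ s log Z ≤ N log Z ≤ N logb 2 Z < T`. -/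
def S_BND : Prop :=
  ∀ (κ : ℕ) (ε : ℝ), 0 < ε → ∃ (c₁ η C₁ : ℝ) (s₁ : ℕ), 0 < c₁ ∧ 0 < η ∧ 0 < C₁ ∧
    ∀ s : ℕ, s₁ ≤ s → ∃ (n : ℕ) (δ : Fin n → ℕ), 2 * n + ∑ v, δ v = 2 * s ∧
      ∀ (Z : ℝ) (g F T : ℕ) (Q A Γ : Type) [Fintype Q] [Fintype A] [Fintype Γ]
        (M : ACC.Machine n Q A Γ), 1 ≤ Z → Z ≤ (s : ℝ) ^ η → 1 ≤ g → C₁ * Z * g * F ≤ s →
        Real.log (Fintype.card Q) ≤ (s : ℝ) ^ (1 - ε) → Fintype.card A ≤ s ^ κ →
        Fintype.card Γ ≤ s ^ (κ * g) →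
        (∀ H : SimpleGraph (Fin n), (∀ v, (adjList H v).length = δ v) →
          (M.Accepts T F H ↔ H.CliqueFree 3)) →
        c₁ * s * Real.log Z ≤ T

end Pool.Agent.ACX
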