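import Mathlib
import Pool.Agent.ACX.Stmts

/-!
# The lower bound for given parameters
-/

set_option autoImplicit false

namespace Pool.Agent.ACX

open Finset Equiv Pool.Agent.TS
open Pool.Agent.RAC (Simp Sparse edg ES)
open Pool.Agent.ACC (FM accSet Pt inc recSpace toFM card_lines)

private lemma bpm_card {m0 D p : ℕ} [NeZero D] [Fact p.Prime]
    (σ : ZMod D → Perm (Fin m0 × ZMod D))
    [DecidablePred fun x : ((Fin m0 × ZMod D) × Pt p) × ((Fin m0 × ZMod D) × Pt p) =>
      ES σ inc x.1 x.2] :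
    (Finset.univ.filter fun x : ((Fin m0 × ZMod D) × Pt p) × ((Fin m0 × ZMod D) × Pt p) =>
      ES σ inc x.1 x.2).card ≤ (m0 * D) * p ^ 2 * (D * p) := by
  classical
  have h1 : (Finset.univ.filter fun x : ((Fin m0 × ZMod D) × Pt p) × ((Fin m0 × ZMod D) × Pt p) =>
      ES σ inc x.1 x.2) ⊆
      (Finset.univ : Finset (((Fin m0 × ZMod D) × Pt p) × (ZMod D × ZMod p))).image fun x =>
        (x.1, (σ x.2.1 x.1.1, (x.2.2, x.1.2.2 - x.2.2 * x.1.2.1))) := by
    rintro ⟨x, y⟩ hx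
    obtain ⟨c, hc, h2⟩ := (Finset.mem_filter.1 hx).2
    simp only [inc] at hc h2
    rw [Finset.mem_image]
    refine ⟨(x, (c, y.2.1)), Finset.mem_univ _, ?_⟩
    simp only [h2]
    refine Prod.ext rfl (Prod.ext hc.symm (Prod.ext rfl ?_))
    simp
  refine (Finset.card_le_card h1).trans (Finset.card_image_le.trans (le_of_eq ?_))
  rw [Finset.card_univ]
  simp only [Fintype.card_prod, ZMod.card, Fintype.card_fin]
  ring

theorem t_BPM (h0 : S_NUM) (hE : RAC.S_EXP) : S_BPM := by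
  intro t m0 D p _ _ s ht hm0 hDt hs
  classical
  obtain ⟨σ, _, hσ⟩ := hE m0 D
  have hp0 : 0 < p := (Fact.out : p.Prime).pos
  have hD0 : 0 < D := Nat.pos_of_ne_zero (NeZero.ne D)
  have hd : 0 < m0 * D := Nat.mul_pos hm0 hD0
  have hcU : Fintype.card (Pt p) = p ^ 2 := by rw [Fintype.card_prod, ZMod.card, sq]
  have hcB : Fintype.card (Fin m0 × ZMod D) = m0 * D := by
    rw [Fintype.card_prod, Fintype.card_fin, ZMod.card]
  obtain ⟨eU⟩ : Nonempty (Pt p ≃ Fin (p ^ 2)) := ⟨Fintype.equivFinOfCardEq hcU⟩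
  obtain ⟨eB⟩ : Nonempty ((Fin m0 × ZMod D) ≃ Fin (m0 * D)) := ⟨Fintype.equivFinOfCardEq hcB⟩
  have : DecidableRel (ES σ (inc (p := p))) := Classical.decRel _
  set w := p ^ 2 with hw
  set d := m0 * D with hdd
  have hw0 : 0 < w := by rw [hw]; positivity
  set cE := (Finset.univ.filter fun x :
    ((Fin m0 × ZMod D) × Pt p) × ((Fin m0 × ZMod D) × Pt p) => ES σ inc x.1 x.2).card with hcE
  have hcEle : cE ≤ t * d * w := by
    have h1 := bpm_card (p := p) σ
    calc cE ≤ (m0 * D) * p ^ 2 * (D * p) := h1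
      _ = (D * p) * (d * w) := by rw [hw, hdd]; ring
      _ ≤ t * (d * w) := Nat.mul_le_mul_right _ hDt
      _ = t * d * w := by ring
  set base := t * w + 2 * (d * w) + 2 * (t * d * w) + cE with hbase
  have hbase_le : base ≤ s := by
    refine le_trans ?_ hs
    have e1 : t * w ≤ t * d * w := by
      rw [mul_assoc t d w]
      exact Nat.mul_le_mul_left _ (Nat.le_mul_of_pos_left _ hd)
    have e2 : d * w ≤ t * d * w := by
      rw [mul_assoc t d w]
      exact Nat.le_mul_of_pos_left _ ht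
    omega
  set pad := s - base with hpad
  refine ⟨t * w + (d * w + (d * w + pad)),
    fun v => dg (Equiv.refl (Fin t)) eB eU pad (ES σ inc)
      ((enc (Equiv.refl (Fin t)) eB eU pad).symm v), ?_, ?_⟩
  · rw [(enc (Equiv.refl (Fin t)) eB eU pad).symm.sum_comp
      (fun x => dg (Equiv.refl (Fin t)) eB eU pad (ES σ inc) x),
      sum_dg, Fintype.card_fin, hcB, hcU, ← hcE]
    omega
  · intro h S G F hh hS hG h1 h2 h3 h4 h5 h6 Q A Γ _ _ _ M T hQ hA hGG hM
    refine h0 t m0 D p σ h S G F T Q A Γ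
      (toFM (Equiv.refl (Fin t)) eB eU (ES σ inc) M) ht hσ hh hS hG h1 h2 h3 h4 h5 h6 hQ hA hGG ?_
    intro z
    rw [← ACC.accepts_iff, hM, cliqueFree_iff]
    intro v
    obtain ⟨x, rfl⟩ := (enc (Equiv.refl (Fin t)) eB eU pad).surjective v
    rw [adjList_graph, length_lst]
    simp

end Pool.Agent.ACX
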