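import Mathlib
import Pool.Agent.ACX.Stmts

/-!
# The number of the inputs accepted by a machine with a far memory
-/

set_option autoImplicit false

namespace Pool.Agent.ACX

open Finset Equiv Pool.Agent.TS Pool.Agent.HM
open Pool.Agent.RAC (Simp Sparse edg ES)
open Pool.Agent.ACC (FM accSet Pt inc recSpace mem_accSet askAM grph grph_sub grph_inj recSpace_card
  hybrid val_mix far_mix)

private lemma cnt_mem_shift {J B U C : Type} {σ : C → Perm B} {c : C}
    {F : Finset ((J × U) × B)} {x : (J × U) × B} (h : x ∈ shiftF σ c F) :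
    ∃ e ∈ F, (e.1, σ c e.2) = x := by
  simp only [shiftF, Finset.mem_image] at h
  exact h

theorem t_CNT (h1 : S_SEL) (h2 : S_REC) : S_CNT := by
  intro J B U Q A Γ C _ _ _ _ _ _ _ _ _ _ _ σ adj ν h M0 L r T F m M b hSp hML hL hTr hν hh h64
    hmix hC hC0 htot hm hacc
  classical
  rcases isEmpty_or_nonempty Q with hQ | hQ
  · have : accSet M b T F = (∅ : Finset (Inp J B U)) := by
      rw [Finset.eq_empty_iff_forall_notMem]
      intro z hz
      obtain ⟨q, _, _⟩ := mem_accSet.1 hz
      exact hQ.elim (q 0)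
    rw [this]
    simp only [Finset.card_empty, Nat.cast_zero]
    positivity
  haveI hCne : Nonempty C := Fintype.card_pos_iff.1 hC0
  -- data for each accepted input
  have hdata : ∀ z : Inp J B U, (∃ q w, M.Run T z q w ∧ M.far b T q w ≤ F) →
      ∃ (q : ℕ → Q) (w : ℕ → Option (A × Γ)) (χ : Fin r → Bool)
      (c : C) (F1 : Finset ((J × U) × B)), M.Run T z q w ∧ M.far b T q w ≤ F ∧
      F1.card = m ∧
      (∀ e ∈ F1, ∀ j : Fin r, e ∈ hits (askAM M) T L z (fun τ => (q τ, M.val q w τ)) true j →
        χ j = true) ∧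
      (∀ e ∈ F1, ∀ j : Fin r,
        (e.1, σ c e.2) ∈ hits (askAM M) T L z (fun τ => (q τ, M.val q w τ)) false j →
        χ j = false) := by
    rintro z ⟨q, w, hp, hf⟩
    obtain ⟨χ, c, F1, h3, h4, h5⟩ := h1 J B U C σ M0 L r
      (fun j : Fin r => hits (askAM M) T L z (fun τ => (q τ, M.val q w τ)) true j)
      (fun j : Fin r => hits (askAM M) T L z (fun τ => (q τ, M.val q w τ)) false j) h hSp hML hh
      hC hC0
      (by
        intro j
        have h6 := (hits_card (askAM M) T L z (fun τ => (q τ, M.val q w τ)) j).trans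
          (seg_card_le T L j hL)
        omega)
      (by
        intro j
        have h6 := (hits_card (askAM M) T L z (fun τ => (q τ, M.val q w τ)) j).trans
          (seg_card_le T L j hL)
        omega)
      (by
        refine le_trans ?_ htot
        have h5 : ∑ j : Fin r, ((hits (askAM M) T L z (fun τ => (q τ, M.val q w τ)) true j).card +
            (hits (askAM M) T L z (fun τ => (q τ, M.val q w τ)) false j).card) ≤ T :=
          (Finset.sum_le_sum (fun (j : Fin r) _ => hits_card (askAM M) T L z _ j)).trans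
            (seg_sum_le T L r)
        exact_mod_cast h5)
    exact ⟨q, w, χ, c, F1, hp, hf, h3.trans hm.symm, h4, h5⟩
  choose! fq fw fχ fc fF1 hf using hdata
  set dat : Inp J B U → (Fin r → Q) × (Fin r → Bool) × C × Finset ((J × U) × B) ×
    Finset (Σ _ : ℕ, Option ℕ × A × Γ) :=
      fun z => (fun j => fq z ((j + 1) * L), fχ z, fc z, fF1 z,
        grph T (M.recd b (fq z) (fw z))) with hdat
  set tgt : Finset ((Fin r → Q) × (Fin r → Bool) × C × Finset ((J × U) × B) ×
    Finset (Σ _ : ℕ, Option ℕ × A × Γ)) :=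
      Finset.univ ×ˢ (Finset.univ ×ˢ (Finset.univ ×ˢ
      (Finset.powersetCard m Finset.univ ×ˢ smallSets (recSpace A Γ T) F))) with htgt
  have hmaps : ∀ z ∈ accSet M b T F, dat z ∈ tgt := by
    intro z hz
    have h1 := hf z (mem_accSet.1 hz)
    simp only [hdat, htgt, Finset.mem_product, Finset.mem_univ, true_and,
      Finset.mem_powersetCard_univ]
    refine ⟨h1.2.2.1, mem_smallSets.2 ⟨grph_sub M b T _ _, ?_⟩⟩
    rw [← FM.far_eq]
    exact h1.2.1
  have htgtcard : (tgt.card : ℝ) ≤ (Fintype.card Q : ℝ) ^ r * 2 ^ r * Fintype.card C *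
      ((Fintype.card ((J × U) × B)).choose m : ℝ) *
      ((T * ((T + 1) * (Fintype.card A * Fintype.card Γ)) + 1 : ℝ) ^ F) := by
    have h1 : ((smallSets (recSpace A Γ T) F).card : ℝ) ≤
        (T * ((T + 1) * (Fintype.card A * Fintype.card Γ)) + 1 : ℝ) ^ F := by
      have h2 := smallSets_card (recSpace A Γ T) F
      rw [recSpace_card] at h2
      exact_mod_cast h2
    simp only [htgt, Finset.card_product, Finset.card_univ, Finset.card_powersetCard,
      Fintype.card_fun, Fintype.card_fin, Fintype.card_bool]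
    push_cast
    calc _ = ((Fintype.card Q : ℝ) ^ r * 2 ^ r * Fintype.card C *
          ((Fintype.card ((J × U) × B)).choose m : ℝ)) *
          ((smallSets (recSpace A Γ T) F).card : ℝ) := by ring
      _ ≤ _ := mul_le_mul_of_nonneg_left h1 (by positivity)
  have hfib : ∀ D0 ∈ tgt, (((accSet M b T F).filter fun z => dat z = D0).card : ℝ) ≤
      Real.exp (2 * m + m / 2 * Real.log (64 * h ^ 2 * ν)) * Fintype.card (Inp J B U) := by
    rintro ⟨τs, χ, c, F1, R⟩ _
    rcases ((accSet M b T F).filter fun z => dat z = (τs, χ, c, F1, R)).eq_empty_or_nonempty with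
      he | hne
    · rw [he]; simp only [Finset.card_empty, Nat.cast_zero]; positivity
    obtain ⟨z0, hz0⟩ := hne
    rw [Finset.mem_filter] at hz0
    have hz0' := hf z0 (mem_accSet.1 hz0.1)
    have hF1e : fF1 z0 = F1 := by
      have := hz0.2; simp only [hdat, Prod.mk.injEq] at this; exact this.2.2.2.1
    have hF1card : F1.card = m := by rw [← hF1e]; exact hz0'.2.2.1
    set F2 : Finset ((J × U) × B) := shiftF σ c F1 with hF2
    apply orbit_bound _ F1 F2
    intro z
    set P := (Gam F1 ×ˢ Gam F2).filter fun g : Inp J B U =>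
      z * g ∈ (accSet M b T F).filter fun z => dat z = (τs, χ, c, F1, R) with hP
    set S1 : Finset (J × B → Perm U) := P.image Prod.fst with hS1
    set S2 : Finset (J × B → Perm U) := P.image Prod.snd with hS2
    have hPle : (P.card : ℝ) ≤ (S1.card : ℝ) * S2.card := by
      have : P ⊆ S1 ×ˢ S2 := by
        intro g hg
        rw [Finset.mem_product]
        exact ⟨Finset.mem_image_of_mem _ hg, Finset.mem_image_of_mem _ hg⟩
      have := Finset.card_le_card this
      rw [Finset.card_product] at this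
      exact_mod_cast this
    refine hPle.trans ?_
    rw [← hF1card]
    refine h2 J B U C σ adj ν h hν hh h64 hmix c F1 z.1 z.2 S1 S2 ?_ ?_ ?_ ?_
    · rw [hF1card, hm]
      exact Nat.le_ceil _
    · intro g1 hg1
      rw [hS1, Finset.mem_image] at hg1
      obtain ⟨g, hg, rfl⟩ := hg1
      rw [hP, Finset.mem_filter, Finset.mem_product] at hg
      exact hg.1.1
    · intro g2 hg2
      rw [hS2, Finset.mem_image] at hg2
      obtain ⟨g, hg, rfl⟩ := hg2
      rw [hP, Finset.mem_filter, Finset.mem_product] at hg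
      exact hg.1.2
    · intro g1 hg1 g2 hg2
      rw [hS1, Finset.mem_image] at hg1
      rw [hS2, Finset.mem_image] at hg2
      obtain ⟨g, hg, rfl⟩ := hg1
      obtain ⟨g', hg', rfl⟩ := hg2
      rw [hP, Finset.mem_filter, Finset.mem_product, Finset.mem_filter] at hg hg'
      obtain ⟨hgG, hgA, hgD⟩ := hg
      obtain ⟨hgG', hgA', hgD'⟩ := hg'
      have hr := hf (z * g) (mem_accSet.1 hgA)
      have hr' := hf (z * g') (mem_accSet.1 hgA')
      simp only [hdat, Prod.mk.injEq] at hgD hgD'
      obtain ⟨d1, d2, d3, d4, d5⟩ := hgD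
      obtain ⟨d1', d2', d3', d4', d5'⟩ := hgD'
      rw [d2, d3, d4] at hr
      rw [d2', d3', d4'] at hr'
      have hrec : ∀ τ < T, M.recd b (fq (z * g)) (fw (z * g)) τ =
          M.recd b (fq (z * g')) (fw (z * g')) τ :=
        fun τ hτ => grph_inj (d5.trans d5'.symm) τ hτ
      -- the colouring extended to all naturals
      set χ' : ℕ → Bool := fun j => if hj : j < r then χ ⟨j, hj⟩ else true with hχ'
      have hdivlt : ∀ τ < T, τ / L < r := by
        intro τ hτ
        rw [Nat.div_lt_iff_lt_mul hL]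
        omega
      have hrun := hybrid M T L χ' z F1 F2 g g' hgG.1 hgG'.1 hgG.2 hgG'.2 (fq (z * g))
        (fq (z * g')) (fw (z * g)) (fw (z * g')) hr.1 hr'.1 ?_
        (fun τ hτ _ => (val_mix M b T L χ' _ _ _ _ hrec τ hτ).1)
        (fun τ hτ _ => (val_mix M b T L χ' _ _ _ _ hrec τ hτ).2) ?_ ?_
      · refine hacc _ ⟨_, _, hrun, ?_⟩
        rw [far_mix M b T L χ' _ _ _ _ hrec]
        exact hr.2.1
      · intro τ hτ hm
        obtain ⟨k, hk⟩ := Nat.dvd_of_mod_eq_zero hm
        have hk0 : k ≠ 0 := by rintro rfl; omega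
        obtain ⟨k', rfl⟩ := Nat.exists_eq_succ_of_ne_zero hk0
        have hk'r : k' < r := by
          have h1 : L * (k' + 1) ≤ r * L := by
            have : L * (k' + 1) = τ + 1 := hk.symm
            omega
          have h2 : L * (k' + 1) ≤ L * r := by rw [mul_comm L r]; exact h1
          have := Nat.le_of_mul_le_mul_left h2 hL
          omega
        have e1 := congrFun d1 ⟨k', hk'r⟩
        have e2 := congrFun d1' ⟨k', hk'r⟩
        simp only at e1 e2
        have : τ + 1 = (k' + 1) * L := by rw [hk, mul_comm]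
        rw [this, e1, e2]
      · intro τ hτ hc p hq hty hin
        have hlt := hdivlt τ hτ
        rw [hF2] at hin
        obtain ⟨e, heF, hee⟩ := cnt_mem_shift hin
        have := hr.2.2.2.2 e heF ⟨τ / L, hlt⟩ (mem_hits.2 ⟨τ, hτ, rfl, p, hq, hty, hee.symm⟩)
        simp only [hχ', dif_pos hlt] at hc
        rw [this] at hc
        exact absurd hc (by decide)
      · intro τ hτ hc p hq hty hin
        have hlt := hdivlt τ hτ
        have := hr'.2.2.2.1 _ hin ⟨τ / L, hlt⟩ (mem_hits.2 ⟨τ, hτ, rfl, p, hq, hty, rfl⟩)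
        simp only [hχ', dif_pos hlt] at hc
        rw [this] at hc
        exact absurd hc (by decide)
  rw [Finset.card_eq_sum_card_fiberwise hmaps]
  push_cast
  calc _ ≤ ∑ _D0 ∈ tgt, Real.exp (2 * m + m / 2 * Real.log (64 * h ^ 2 * ν)) *
        Fintype.card (Inp J B U) := Finset.sum_le_sum hfib
    _ = (tgt.card : ℝ) * (Real.exp (2 * m + m / 2 * Real.log (64 * h ^ 2 * ν)) *
        Fintype.card (Inp J B U)) := by rw [Finset.sum_const, nsmul_eq_mul]
    _ ≤ _ := mul_le_mul_of_nonneg_right htgtcard (by positivity)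

end Pool.Agent.ACX
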