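import Mathlib
import Pool.Agent.ACX.Stmts

/-!
# The inequality forced by a machine accepting exactly the triangle-free inputs
-/

set_option autoImplicit false

namespace Pool.Agent.ACX

open Finset Equiv Pool.Agent.TS Pool.Agent.HM
open Pool.Agent.RAC (Simp Sparse edg ES)
open Pool.Agent.ACC (FM accSet Pt inc recSpace mem_accSet)

section Deg

variable {J B U C : Type} [Fintype J] [Fintype B] [Fintype U] [Fintype C]

private lemma ine_row (σ : C → Perm B) (adj : U → U → Prop) (d1 : ℕ)
    (hd : ∀ x, ∀ [DecidablePred fun y => adj x y],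
      ((Finset.univ : Finset U).filter fun y => adj x y).card ≤ d1)
    (π : J × B → Perm U) (κ : J × B) (u : U) [DecidablePred (forb (ES σ adj) π κ u)] :
    (Finset.univ.filter fun v => forb (ES σ adj) π κ u v).card ≤ Fintype.card C * d1 := by
  classical
  have h1 : (Finset.univ.filter fun v => forb (ES σ adj) π κ u v) ⊆
      (Finset.univ : Finset C).biUnion fun c =>
        Finset.univ.filter fun v => adj (π (κ.1, (σ c).symm κ.2) u) v := by
    intro v hv
    obtain ⟨b, c, hc, hb⟩ := (Finset.mem_filter.1 hv).2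
    rw [Finset.mem_biUnion]
    refine ⟨c, Finset.mem_univ _, ?_⟩
    rw [Finset.mem_filter]
    refine ⟨Finset.mem_univ _, ?_⟩
    have hbb : (σ c).symm κ.2 = b := by
      have hc' : κ.2 = σ c b := hc
      rw [hc', Equiv.symm_apply_apply]
    rw [hbb]
    exact hb
  refine (Finset.card_le_card h1).trans (Finset.card_biUnion_le.trans ?_)
  refine (Finset.sum_le_sum fun c _ => hd (π (κ.1, (σ c).symm κ.2) u)).trans (le_of_eq ?_)
  simp

private lemma ine_col (σ : C → Perm B) (adj : U → U → Prop) (d1 : ℕ)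
    (hd : ∀ y, ∀ [DecidablePred fun x => adj x y],
      ((Finset.univ : Finset U).filter fun x => adj x y).card ≤ d1)
    (π : J × B → Perm U) (κ : J × B) (v : U)
    [DecidablePred fun u => forb (ES σ adj) π κ u v] :
    (Finset.univ.filter fun u => forb (ES σ adj) π κ u v).card ≤ Fintype.card C * d1 := by
  classical
  have h1 : (Finset.univ.filter fun u => forb (ES σ adj) π κ u v) ⊆
      (Finset.univ : Finset C).biUnion fun c =>
        (Finset.univ.filter fun x => adj x v).image
          fun x => (π (κ.1, (σ c).symm κ.2)).symm x := by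
    intro u hu
    obtain ⟨b, c, hc, hb⟩ := (Finset.mem_filter.1 hu).2
    rw [Finset.mem_biUnion]
    refine ⟨c, Finset.mem_univ _, ?_⟩
    rw [Finset.mem_image]
    have hbb : (σ c).symm κ.2 = b := by
      have hc' : κ.2 = σ c b := hc
      rw [hc', Equiv.symm_apply_apply]
    refine ⟨π (κ.1, b) u, ?_, ?_⟩
    · rw [Finset.mem_filter]
      exact ⟨Finset.mem_univ _, hb⟩
    · rw [hbb, Equiv.symm_apply_apply]
  refine (Finset.card_le_card h1).trans (Finset.card_biUnion_le.trans ?_)
  refine (Finset.sum_le_sum fun c _ => Finset.card_image_le.trans (hd v)).trans (le_of_eq ?_)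
  simp

end Deg

theorem t_INE (h0 : S_CNT) : S_INE := by
  intro J B U Q A Γ C _ _ _ _ _ _ _ _ _ _ _ σ adj ν h M0 L r T F m d1 M hdc hdr h2D hSp hML hL
    hTr hν hh h64 hmix hC hC0 htot hm hacc
  classical
  set X : ℝ := (Fintype.card Q : ℝ) ^ r * 2 ^ r * Fintype.card C *
      ((Fintype.card ((J × U) × B)).choose m : ℝ) *
      ((T * ((T + 1) * (Fintype.card A * Fintype.card Γ)) + 1 : ℝ) ^ F) *
      Real.exp (2 * m + m / 2 * Real.log (64 * h ^ 2 * ν)) with hX
  have h3 : ∀ x ∈ Finset.range (T + 1) ×ˢ (Finset.univ : Finset Bool),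
      ((accSet M x.2 x.1 F).card : ℝ) ≤ X * Fintype.card (Inp J B U) := by
    rintro ⟨T', b⟩ hT'
    rw [Finset.mem_product, Finset.mem_range] at hT'
    have hT'1 : T' < T + 1 := hT'.1
    have h4 := h0 J B U Q A Γ C σ adj ν h M0 L r T' F m M b hSp hML hL (by omega) hν hh h64 hmix
      hC hC0 (le_trans (by exact_mod_cast (by omega : T' ≤ T)) htot) hm (fun z hz => by
        obtain ⟨q, w, h5, h6⟩ := hz
        exact (hacc z).1 ⟨T', by omega, b, q, w, h5, h6⟩)
    refine h4.trans ?_
    have hTT : (T' : ℝ) ≤ T := by exact_mod_cast (by omega : T' ≤ T)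
    rw [hX]
    have hpw : (T' * ((T' + 1) * (Fintype.card A * Fintype.card Γ)) + 1 : ℝ) ^ F ≤
        (T * ((T + 1) * (Fintype.card A * Fintype.card Γ)) + 1 : ℝ) ^ F := by gcongr
    have hle := mul_le_mul_of_nonneg_right (mul_le_mul_of_nonneg_left hpw
      (show (0 : ℝ) ≤ (Fintype.card Q : ℝ) ^ r * 2 ^ r * Fintype.card C *
        ((Fintype.card ((J × U) × B)).choose m : ℝ) by positivity))
      (show (0 : ℝ) ≤ Real.exp (2 * m + m / 2 * Real.log (64 * h ^ 2 * ν)) *
        Fintype.card (Inp J B U) by positivity)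
    refine hle.trans (le_of_eq ?_)
    ring
  have h4 : tfSet J (ES σ adj) ⊆ (Finset.range (T + 1) ×ˢ (Finset.univ : Finset Bool)).biUnion
      fun x => accSet M x.2 x.1 F := by
    intro z hz
    rw [mem_tfSet] at hz
    obtain ⟨T', hT', b, q, w, hp, hf⟩ := (hacc z).2 hz
    rw [Finset.mem_biUnion]
    exact ⟨(T', b), by simp; omega, mem_accSet.2 ⟨q, w, hp, hf⟩⟩
  have h5 : ((tfSet J (ES σ adj)).card : ℝ) ≤
      (2 * (T + 1)) * (X * Fintype.card (Inp J B U)) := by
    calc ((tfSet J (ES σ adj)).card : ℝ) ≤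
          (((Finset.range (T + 1) ×ˢ (Finset.univ : Finset Bool)).biUnion
            fun x => accSet M x.2 x.1 F).card : ℝ) := by
          exact_mod_cast Finset.card_le_card h4
      _ ≤ ∑ x ∈ Finset.range (T + 1) ×ˢ (Finset.univ : Finset Bool),
            ((accSet M x.2 x.1 F).card : ℝ) := by
          exact_mod_cast Finset.card_biUnion_le
      _ ≤ ∑ _x ∈ Finset.range (T + 1) ×ˢ (Finset.univ : Finset Bool),
            X * Fintype.card (Inp J B U) := Finset.sum_le_sum h3
      _ = _ := by
          rw [Finset.sum_const, Finset.card_product, Finset.card_range, nsmul_eq_mul,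
            Finset.card_univ, Fintype.card_bool]
          push_cast
          ring
  have h6 : (Fintype.card (Inp J B U) : ℝ) ≤
      (Fintype.card U : ℝ) ^ (2 * (Fintype.card C * d1) * Fintype.card (J × B)) *
        (tfSet J (ES σ adj)).card := by
    exact_mod_cast tf_count (ES σ adj) (Fintype.card C * d1)
      (fun π κ u _ => ine_row σ adj d1 hdr π κ u) (fun π κ v _ => ine_col σ adj d1 hdc π κ v) h2D
  have hI : (0 : ℝ) < Fintype.card (Inp J B U) := by exact_mod_cast Fintype.card_pos
  have h7 : (Fintype.card (Inp J B U) : ℝ) * 1 ≤ Fintype.card (Inp J B U) *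
      ((Fintype.card U : ℝ) ^ (2 * (Fintype.card C * d1) * Fintype.card (J × B)) *
        ((2 * (T + 1)) * X)) := by
    calc (Fintype.card (Inp J B U) : ℝ) * 1 = Fintype.card (Inp J B U) := mul_one _
      _ ≤ _ := h6
      _ ≤ (Fintype.card U : ℝ) ^ (2 * (Fintype.card C * d1) * Fintype.card (J × B)) *
          ((2 * (T + 1)) * (X * Fintype.card (Inp J B U))) :=
          mul_le_mul_of_nonneg_left h5 (by positivity)
      _ = _ := by ring
  exact le_of_mul_le_mul_left h7 hI

end Pool.Agent.ACX
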