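import Mathlib
import Pool.Agent.ACX.Stmts

/-!
# No machine with few far accesses: the numerical part
-/

set_option autoImplicit false

namespace Pool.Agent.ACX

open Finset Equiv Pool.Agent.TS
open Pool.Agent.RAC (Simp Sparse edg ES)
open Pool.Agent.ACC (FM accSet Pt inc recSpace card_lines inc_count card_le_exp' logb_le_self')

private lemma num_cols {p : ℕ} [Fact p.Prime] (y : Pt p) [DecidablePred fun x : Pt p => inc x y] :
    ((Finset.univ : Finset (Pt p)).filter fun x => inc x y).card ≤ p := by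
  classical
  have h1 : ((Finset.univ : Finset (Pt p)).filter fun x => inc x y) ⊆
      (Finset.univ : Finset (ZMod p)).image fun a => (a, y.1 * a + y.2) := by
    intro x hx
    have h2 : x.2 = y.1 * x.1 + y.2 := (Finset.mem_filter.1 hx).2
    rw [Finset.mem_image]
    exact ⟨x.1, Finset.mem_univ _, Prod.ext rfl h2.symm⟩
  refine (Finset.card_le_card h1).trans (Finset.card_image_le.trans (le_of_eq ?_))
  rw [Finset.card_univ, ZMod.card]

private lemma num_rows {p : ℕ} [Fact p.Prime] (x : Pt p) [DecidablePred fun y : Pt p => inc x y] :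
    ((Finset.univ : Finset (Pt p)).filter fun y => inc x y).card ≤ p := by
  refine (le_of_eq ?_).trans (le_of_eq (card_lines x))
  congr 1
  ext y
  simp

/-- The number of possible records of a far access. -/
private lemma num_rec {T cA cG : ℕ} {G y : ℝ} (hG1 : 1 ≤ G) (hy0 : 0 < y) (hy : Real.log y ≤ G)
    (hT : (T : ℝ) ≤ y ^ 2) (hA : Real.log cA ≤ G) (hG : Real.log cG ≤ G) :
    (T * ((T + 1) * (cA * cG)) + 1 : ℝ) ≤ Real.exp (8 * G) := by
  have h1 := card_le_exp' hA
  have h2 := card_le_exp' hG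
  have hyE : y ≤ Real.exp G := by
    calc y = Real.exp (Real.log y) := (Real.exp_log hy0).symm
      _ ≤ _ := Real.exp_le_exp.2 hy
  have h3 : y ^ 2 ≤ Real.exp (2 * G) := by
    calc y ^ 2 ≤ (Real.exp G) ^ 2 := pow_le_pow_left₀ hy0.le hyE 2
      _ = Real.exp (2 * G) := by rw [← Real.exp_nat_mul]; norm_num
  have h4 : (T : ℝ) ≤ Real.exp (2 * G) := hT.trans h3
  have h5 : (3 : ℝ) ≤ Real.exp (2 * G) := by
    have := Real.add_one_le_exp (2 * G)
    linarith
  have h7 : (cA : ℝ) * cG ≤ Real.exp (2 * G) := by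
    calc (cA : ℝ) * cG ≤ Real.exp G * Real.exp G := by gcongr
      _ = Real.exp (2 * G) := by rw [← Real.exp_add]; ring_nf
  obtain ⟨E, hE⟩ : ∃ E : ℝ, E = Real.exp (2 * G) := ⟨_, rfl⟩
  rw [← hE] at h4 h5 h7
  have h8 : Real.exp (8 * G) = E ^ 4 := by
    rw [hE, ← Real.exp_nat_mul]
    ring_nf
  rw [h8]
  have hE0 : 0 < E := by linarith
  have h9 : (T : ℝ) * ((T + 1) * (cA * cG)) ≤ E * ((E + 1) * E) := by gcongr
  nlinarith [mul_pos hE0 hE0, mul_pos (mul_pos hE0 hE0) hE0, mul_le_mul_of_nonneg_left h5 hE0.le,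
    mul_le_mul_of_nonneg_left h5 (mul_pos hE0 hE0).le,
    mul_le_mul_of_nonneg_left h5 (mul_pos (mul_pos hE0 hE0) hE0).le]

set_option maxHeartbeats 4000000 in
theorem t_NUM (h0 : S_INE) : S_NUM := by
  intro t m0 D p _ _ σ h S G F T Q A Γ _ _ _ M ht hSp hh hS hG1 hD hp hhD hdS hNG hF hQ hA hG hacc
  classical
  by_contra hcon
  push Not at hcon
  have hT := hcon
  clear hcon
  have hh0 : (0 : ℝ) < h := by linarith
  have htR : (1 : ℝ) ≤ t := by exact_mod_cast ht
  have ht0 : (0 : ℝ) < t := by linarith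
  have hS0 : (0 : ℝ) < S := by linarith
  have hh2 : (1 : ℝ) ≤ h ^ 2 := one_le_pow₀ hh
  have hDN : 0 < D := Nat.pos_of_ne_zero (NeZero.ne D)
  have hD1 : (1 : ℝ) ≤ D := by exact_mod_cast hDN
  have hD0 : (0 : ℝ) < D := by linarith
  have hp24 : (2 : ℝ) ^ 24 * h ≤ p := by
    refine le_trans ?_ hp
    exact mul_le_mul_of_nonneg_left (le_self_pow₀ hh (by norm_num)) (by positivity)
  have hp0 : (0 : ℝ) < p := lt_of_lt_of_le (by positivity) hp
  have hp1 : (1 : ℝ) ≤ p := by
    refine le_trans ?_ hp24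
    linarith
  have hpN : 0 < p := by exact_mod_cast hp0
  -- the block size
  obtain ⟨d, hd⟩ : ∃ d : ℝ, d = m0 * D := ⟨_, rfl⟩
  rw [← hd] at hdS hNG hF hT
  have hdS' : 3 * (D : ℝ) ^ 4 * (2 ^ 11 * h ^ 2 * S) ≤ d := hdS
  have hD4 : (1 : ℝ) ≤ (D : ℝ) ^ 4 := one_le_pow₀ hD1
  have hhS : (1 : ℝ) ≤ h ^ 2 * S := one_le_mul_of_one_le_of_one_le hh2 hS
  have hd1 : (1 : ℝ) ≤ d := by
    refine le_trans ?_ hdS'
    calc (1 : ℝ) ≤ (D : ℝ) ^ 4 * (h ^ 2 * S) := one_le_mul_of_one_le_of_one_le hD4 hhS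
      _ ≤ (3 * 2 ^ 11) * ((D : ℝ) ^ 4 * (h ^ 2 * S)) :=
          le_mul_of_one_le_left (by positivity) (by norm_num)
      _ = _ := by ring
  have hd0 : (0 : ℝ) < d := by linarith
  have hcU : Fintype.card (Pt p) = p ^ 2 := by
    rw [Fintype.card_prod, ZMod.card, sq]
  have hcB : Fintype.card (Fin m0 × ZMod D) = m0 * D := by
    rw [Fintype.card_prod, Fintype.card_fin, ZMod.card]
  have hcC : Fintype.card (ZMod D) = D := ZMod.card D
  -- the logarithm of p
  obtain ⟨lp, hlp⟩ : ∃ lp : ℝ, lp = Real.log p := ⟨_, rfl⟩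
  have hlogh : 0 ≤ Real.log h := Real.log_nonneg hh
  have hl2 : (0.69 : ℝ) ≤ Real.log 2 := by
    have := Real.log_two_gt_d9
    linarith
  have hl2' : Real.log 2 ≤ 0.7 := by
    have := Real.log_two_lt_d9
    linarith
  have hlpge : 24 * Real.log 2 + 6 * Real.log h ≤ lp := by
    rw [hlp]
    have h1 := Real.log_le_log (by positivity) hp
    rw [Real.log_mul (by positivity) (by positivity), Real.log_pow, Real.log_pow] at h1
    push_cast at h1
    linarith
  have hlp1 : 1 ≤ lp := by linarith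
  have hlp0 : 0 < lp := by linarith
  -- the number y of entries
  obtain ⟨y, hy⟩ : ∃ y : ℝ, y = t * d * p ^ 2 := ⟨_, rfl⟩
  have hy0 : 0 < y := by rw [hy]; positivity
  rw [← hy] at hT hF hNG
  have hdy : d * p ^ 2 ≤ y := by
    rw [hy]
    calc d * (p : ℝ) ^ 2 = 1 * (d * (p : ℝ) ^ 2) := by ring
      _ ≤ (t : ℝ) * (d * (p : ℝ) ^ 2) := mul_le_mul_of_nonneg_right htR (by positivity)
      _ = (t : ℝ) * d * p ^ 2 := by ring
  have hpy2 : (p : ℝ) ^ 2 ≤ y := by
    refine le_trans ?_ hdy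
    exact le_mul_of_one_le_left (by positivity) hd1
  have hpp : (p : ℝ) ≤ p ^ 2 := le_self_pow₀ hp1 (by norm_num)
  have hpy : (p : ℝ) ≤ y := hpp.trans hpy2
  have hdley : d ≤ y := by
    refine le_trans ?_ hdy
    exact le_mul_of_one_le_right hd0.le (one_le_pow₀ hp1)
  have hhy : (2 : ℝ) ^ 24 * h ≤ y := hp24.trans hpy
  have hy1 : 1 ≤ y := hp1.trans hpy
  -- the budget
  obtain ⟨bu, hbu⟩ : ∃ bu : ℝ, bu = y * lp / (64 * h) := ⟨_, rfl⟩
  have hbu0 : 0 < bu := by rw [hbu]; positivity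
  -- time
  have hT2 : (T : ℝ) ≤ 2 * (h * y) := by
    refine hT.trans ?_
    have := mul_le_mul_of_nonneg_left (logb_le_self' hh0) hy0.le
    linarith
  -- the segments
  obtain ⟨L, hL⟩ : ∃ L : ℕ, L = ⌈2 ^ 10 * h ^ 2 * S⌉₊ := ⟨_, rfl⟩
  have hLge : 2 ^ 10 * h ^ 2 * S ≤ L := by rw [hL]; exact Nat.le_ceil _
  have hLR0 : (0 : ℝ) < L := lt_of_lt_of_le (by positivity) hLge
  have hL0 : 0 < L := by exact_mod_cast hLR0
  have hLle : (L : ℝ) ≤ 2 ^ 11 * h ^ 2 * S := by
    have h1 := Nat.ceil_lt_add_one (show 0 ≤ 2 ^ 10 * h ^ 2 * S by positivity)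
    rw [← hL] at h1
    have h2 : 2 ^ 11 * h ^ 2 * S = 2 ^ 10 * h ^ 2 * S + 2 ^ 10 * (h ^ 2 * S) := by ring
    rw [h2]
    linarith
  have hLd : 3 * (D : ℝ) ^ 4 * L ≤ d := by
    refine le_trans ?_ hdS'
    exact mul_le_mul_of_nonneg_left hLle (by positivity)
  have hML : 3 * D ^ 4 * L ≤ Fintype.card (Fin m0 × ZMod D) := by
    rw [hcB]
    rw [hd] at hLd
    exact_mod_cast hLd
  have hLley : (L : ℝ) ≤ h * y := by
    have h1 : (L : ℝ) ≤ 3 * (D : ℝ) ^ 4 * L := by
      have : (1 : ℝ) ≤ 3 * (D : ℝ) ^ 4 := by linarith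
      exact le_mul_of_one_le_left hLR0.le this
    have h2 : y ≤ h * y := le_mul_of_one_le_left hy0.le hh
    linarith
  obtain ⟨r, hr⟩ : ∃ r : ℕ, r = T / L + 1 := ⟨_, rfl⟩
  have hTr : T ≤ r * L := by
    rw [hr, add_mul, one_mul]
    have := Nat.lt_div_mul_add (a := T) hL0
    omega
  have hrL : (r : ℝ) * L ≤ 3 * (h * y) := by
    have h1 : r * L ≤ T + L := by
      rw [hr, add_mul, one_mul]
      have := Nat.div_mul_le_self T L
      omega
    have h2 : (r : ℝ) * L ≤ T + L := by exact_mod_cast h1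
    linarith
  -- parameters
  have hν0 : (0 : ℝ) < 1 / p := by positivity
  have h64 : 64 * h ^ 2 * (1 / (p : ℝ)) ≤ 1 := by
    rw [mul_one_div, div_le_one hp0]
    refine le_trans ?_ hp
    have h1 : h ^ 2 ≤ h ^ 6 := pow_le_pow_right₀ hh (by norm_num)
    calc 64 * h ^ 2 ≤ 2 ^ 24 * h ^ 2 := mul_le_mul_of_nonneg_right (by norm_num) (by positivity)
      _ ≤ 2 ^ 24 * h ^ 6 := mul_le_mul_of_nonneg_left h1 (by positivity)
  have hlog64 : Real.log (64 * h ^ 2 * (1 / (p : ℝ))) = 6 * Real.log 2 + 2 * Real.log h - lp := by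
    rw [mul_one_div, Real.log_div (by positivity) hp0.ne', Real.log_mul (by norm_num)
      (by positivity), show (64 : ℝ) = 2 ^ 6 by norm_num, Real.log_pow, Real.log_pow, ← hlp]
    push_cast
    ring
  have hlog2h : Real.log (2 * h) = Real.log 2 + Real.log h :=
    Real.log_mul (by norm_num) hh0.ne'
  have cI : Fintype.card (Fin t × Pt p) = t * p ^ 2 := by
    rw [Fintype.card_prod, Fintype.card_fin, hcU]
  have cK : Fintype.card (Fin t × (Fin m0 × ZMod D)) = t * (m0 * D) := by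
    rw [Fintype.card_prod, Fintype.card_fin, hcB]
  have cE : Fintype.card ((Fin t × Pt p) × (Fin m0 × ZMod D)) = t * p ^ 2 * (m0 * D) := by
    rw [Fintype.card_prod, cI, hcB]
  have cIB : (Fintype.card (Fin t × Pt p) : ℝ) * Fintype.card (Fin m0 × ZMod D) = y := by
    rw [cI, hcB, hy, hd]
    push_cast
    ring
  obtain ⟨m, hm⟩ : ∃ m, m = ⌈((Fintype.card (Fin t × Pt p) : ℝ) *
    Fintype.card (Fin m0 × ZMod D)) / (2 * h)⌉₊ := ⟨_, rfl⟩
  obtain ⟨mm, hmm⟩ : ∃ mm : ℝ, mm = (m : ℝ) := ⟨_, rfl⟩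
  have hymm : y ≤ (2 * h) * mm := by
    have h1 := Nat.le_ceil (((Fintype.card (Fin t × Pt p) : ℝ) *
      Fintype.card (Fin m0 × ZMod D)) / (2 * h))
    rw [← hm, cIB, div_le_iff₀ (by positivity), ← hmm] at h1
    linarith
  have hmm0 : 0 < mm := by
    by_contra hcon
    push Not at hcon
    have h1 : (2 * h) * mm ≤ 0 := mul_nonpos_of_nonneg_of_nonpos (by positivity) hcon
    linarith
  have htot : (T : ℝ) ≤ Fintype.card (Fin t × Pt p) * Fintype.card (Fin m0 × ZMod D) *
      Real.logb 2 h := by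
    rw [cIB]
    exact hT
  have hlogbD : 8 * h * Real.logb 2 h ≤ Fintype.card (ZMod D) := by
    rw [hcC]
    refine le_trans ?_ hD
    have h1 := mul_le_mul_of_nonneg_left (logb_le_self' hh0) (show 0 ≤ 8 * h by positivity)
    refine h1.trans (le_of_eq ?_)
    ring
  have hhDN : 2 * (Fintype.card (ZMod D) * p) ≤ Fintype.card (Pt p) := by
    rw [hcC, hcU, sq, ← mul_assoc]
    apply Nat.mul_le_mul_right
    have h1 : 2 * (D : ℝ) ≤ p := by
      refine le_trans ?_ hhD
      have h2 : (D : ℝ) ≤ h * D := le_mul_of_one_le_left hD0.le hh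
      linarith
    exact_mod_cast h1
  have key := h0 (Fin t) (Fin m0 × ZMod D) (Pt p) Q A Γ (ZMod D) σ inc (1 / (p : ℝ)) h
    (3 * D ^ 4) L r T F m p M (fun y _ => num_cols y) (fun x _ => num_rows x) hhDN hSp hML hL0 hTr
    hν0 hh h64 (by
      intro V W hVW
      refine (inc_count V W hVW).trans (le_of_eq ?_)
      rw [hcU]
      push_cast
      field_simp) hlogbD (by rw [hcC]; exact hDN) htot hm hacc
  rw [cE, cK, hcU, hcC, ← hmm, hlog64] at key
  -- bounds of the factors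
  have e1 : ((p ^ 2 : ℕ) : ℝ) ^ (2 * (D * p) * (t * (m0 * D))) ≤ Real.exp bu := by
    have h1 : ((p ^ 2 : ℕ) : ℝ) ^ (2 * (D * p) * (t * (m0 * D))) =
        Real.exp (((2 * (D * p) * (t * (m0 * D)) : ℕ) : ℝ) * (2 * lp)) := by
      rw [Real.exp_nat_mul, hlp]
      congr 1
      rw [two_mul, Real.exp_add, Real.exp_log hp0]
      push_cast
      ring
    rw [h1]
    apply Real.exp_le_exp.2
    rw [hbu]
    push_cast
    rw [← hd, le_div_iff₀ (by positivity)]
    calc 2 * ((D : ℝ) * p) * (t * d) * (2 * lp) * (64 * h)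
        = ((t : ℝ) * d * p) * lp * (256 * h * D) := by ring
      _ ≤ ((t : ℝ) * d * p) * lp * p := by gcongr
      _ = y * lp := by rw [hy]; ring
  have e2 : (2 * ((T : ℝ) + 1)) ≤ Real.exp bu := by
    have h1 : 2 * ((T : ℝ) + 1) ≤ 6 * (h * y) := by
      have h2 : 1 ≤ h * y := one_le_mul_of_one_le_of_one_le hh hy1
      linarith
    have h2 : 6 * (h * y) ≤ y ^ 2 := by
      have h3 : 6 * h ≤ y := by
        refine le_trans ?_ hhy
        exact mul_le_mul_of_nonneg_right (by norm_num) hh0.le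
      calc 6 * (h * y) = (6 * h) * y := by ring
        _ ≤ y * y := mul_le_mul_of_nonneg_right h3 hy0.le
        _ = y ^ 2 := by ring
    have h3 : y ^ 2 = Real.exp (2 * Real.log y) := by
      rw [mul_comm, ← Real.rpow_def_of_pos hy0]
      norm_cast
    refine (h1.trans h2).trans ?_
    rw [h3]
    apply Real.exp_le_exp.2
    rw [hbu, le_div_iff₀ (by positivity)]
    have h4 := log_le_two_sqrt y hy0
    have h5 : Real.sqrt y * Real.sqrt y = y := Real.mul_self_sqrt hy0.le
    have h6 : 256 * h ≤ Real.sqrt y := by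
      apply Real.le_sqrt_of_sq_le
      refine le_trans ?_ hpy2
      apply pow_le_pow_left₀ (by positivity)
      refine le_trans ?_ hp24
      exact mul_le_mul_of_nonneg_right (by norm_num) hh0.le
    calc 2 * Real.log y * (64 * h) ≤ 2 * (2 * Real.sqrt y) * (64 * h) := by gcongr
      _ = Real.sqrt y * (256 * h) := by ring
      _ ≤ Real.sqrt y * Real.sqrt y := by gcongr
      _ = y * 1 := by rw [h5, mul_one]
      _ ≤ y * lp := mul_le_mul_of_nonneg_left hlp1 hy0.le
  have e3 : (Fintype.card Q : ℝ) ^ r * 2 ^ r ≤ Real.exp (bu / 2) := by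
    have h1 := card_le_exp' hQ
    have h2 : (2 : ℝ) ≤ Real.exp S := by
      have := Real.add_one_le_exp S
      linarith
    calc (Fintype.card Q : ℝ) ^ r * 2 ^ r ≤ (Real.exp S) ^ r * (Real.exp S) ^ r := by gcongr
      _ = Real.exp (2 * (r * S)) := by
          rw [← Real.exp_nat_mul, ← Real.exp_add]; ring_nf
      _ ≤ Real.exp (bu / 2) := by
          apply Real.exp_le_exp.2
          rw [hbu, div_div, le_div_iff₀ (by positivity)]
          have h3 : (r : ℝ) * (2 ^ 10 * h ^ 2 * S) ≤ 3 * (h * y) :=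
            (mul_le_mul_of_nonneg_left hLge (Nat.cast_nonneg _)).trans hrL
          have h4 : h * (r * S * (2 ^ 10 * h)) ≤ h * (3 * y) := by
            calc _ = (r : ℝ) * (2 ^ 10 * h ^ 2 * S) := by ring
              _ ≤ _ := h3
              _ = _ := by ring
          have h5 : r * S * (2 ^ 10 * h) ≤ 3 * y := le_of_mul_le_mul_left h4 hh0
          calc 2 * ((r : ℝ) * S) * (64 * h * 2) = (r * S * (2 ^ 10 * h)) / 4 := by ring
            _ ≤ 3 * y / 4 := by linarith
            _ ≤ y * 1 := by linarith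
            _ ≤ y * lp := mul_le_mul_of_nonneg_left hlp1 hy0.le
  have e6 : (D : ℝ) ≤ Real.exp (bu / 2) := by
    have h1 : (D : ℝ) ≤ p := by
      refine le_trans ?_ hhD
      have h2 : (D : ℝ) ≤ h * D := le_mul_of_one_le_left hD0.le hh
      linarith
    calc (D : ℝ) ≤ p := h1
      _ = Real.exp lp := by rw [hlp, Real.exp_log hp0]
      _ ≤ Real.exp (bu / 2) := by
          apply Real.exp_le_exp.2
          rw [hbu, div_div, le_div_iff₀ (by positivity)]
          have h3 : 64 * h * 2 ≤ y := by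
            refine le_trans ?_ hhy
            linarith
          calc lp * (64 * h * 2) ≤ lp * y := mul_le_mul_of_nonneg_left h3 hlp0.le
            _ = y * lp := mul_comm _ _
  have e4 : (T * ((T + 1) * (Fintype.card A * Fintype.card Γ)) + 1 : ℝ) ^ F ≤ Real.exp bu := by
    have hTy : (T : ℝ) ≤ y ^ 2 := by
      have h3 : 2 * h ≤ y := by
        refine le_trans ?_ hhy
        exact mul_le_mul_of_nonneg_right (by norm_num) hh0.le
      calc (T : ℝ) ≤ 2 * (h * y) := hT2
        _ = (2 * h) * y := by ring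
        _ ≤ y * y := mul_le_mul_of_nonneg_right h3 hy0.le
        _ = y ^ 2 := by ring
    have h1 := num_rec hG1 hy0 hNG hTy hA hG
    calc (T * ((T + 1) * (Fintype.card A * Fintype.card Γ)) + 1 : ℝ) ^ F
        ≤ Real.exp (8 * G) ^ F := pow_le_pow_left₀ (by positivity) h1 F
      _ = Real.exp (F * (8 * G)) := by rw [← Real.exp_nat_mul]
      _ ≤ Real.exp bu := by
          apply Real.exp_le_exp.2
          rw [hbu, le_div_iff₀ (by positivity)]
          calc (F : ℝ) * (8 * G) * (64 * h) = 512 * h * G * F := by ring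
            _ ≤ y * Real.log p := hF
            _ = y * lp := by rw [hlp]
  have e5 : ((t * p ^ 2 * (m0 * D)).choose m : ℝ) ≤ Real.exp (mm + mm * Real.log (2 * h)) := by
    have h1 := choose_le_exp (t * p ^ 2 * (m0 * D)) m (2 * h) (by positivity)
      (by rw [← hmm]; push_cast; refine le_trans (le_of_eq ?_) hymm; rw [hy, hd]; ring)
    rw [← hmm] at h1
    exact h1
  have hprod : ((p ^ 2 : ℕ) : ℝ) ^ (2 * (D * p) * (t * (m0 * D))) * ((2 * ((T : ℝ) + 1)) *
      ((Fintype.card Q : ℝ) ^ r * 2 ^ r * D * ((t * p ^ 2 * (m0 * D)).choose m : ℝ) *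
      ((T * ((T + 1) * (Fintype.card A * Fintype.card Γ)) + 1 : ℝ) ^ F) *
      Real.exp (2 * mm + mm / 2 * (6 * Real.log 2 + 2 * Real.log h - lp)))) ≤
      Real.exp bu * (Real.exp bu * (Real.exp (bu / 2) * Real.exp (bu / 2) *
        Real.exp (mm + mm * Real.log (2 * h)) * Real.exp bu *
          Real.exp (2 * mm + mm / 2 * (6 * Real.log 2 + 2 * Real.log h - lp)))) := by
    gcongr
  have hfin := key.trans hprod
  rw [← Real.exp_add, ← Real.exp_add, ← Real.exp_add, ← Real.exp_add, ← Real.exp_add,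
    ← Real.exp_add, Real.one_le_exp_iff] at hfin
  have hexp : bu + (bu + (bu / 2 + bu / 2 + (mm + mm * Real.log (2 * h)) + bu +
      (2 * mm + mm / 2 * (6 * Real.log 2 + 2 * Real.log h - lp)))) =
      4 * bu + mm * (3 + 4 * Real.log 2 + 2 * Real.log h - lp / 2) := by
    rw [hlog2h]; ring
  rw [hexp] at hfin
  have h1 : 3 + 4 * Real.log 2 + 2 * Real.log h - lp / 2 < -(lp / 8) := by linarith
  have h2 := mul_lt_mul_of_pos_left h1 hmm0
  have h3 : 4 * bu ≤ mm * (lp / 8) := by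
    rw [hbu]
    have h4 : y * lp / (64 * h) ≤ (2 * h) * mm * lp / (64 * h) := by
      gcongr
    have h5 : (2 * h) * mm * lp / (64 * h) = mm * lp / 32 := by
      field_simp; norm_num
    rw [h5] at h4
    linarith
  linarith

end Pool.Agent.ACX
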