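import Mathlib
import Pool.Agent.ACX.Stmts

/-!
# Module REC: a rectangle of triangle-free inputs is small (MP_ad5e8e_lc, by helper30)
-/

set_option autoImplicit false

namespace Pool.Agent.ACX

open Finset Equiv Pool.Agent.TS
open Pool.Agent.RAC (Simp Sparse edg ES)

section

variable {J B U : Type} [Fintype J] [Fintype B] [Fintype U] [DecidableEq J] [DecidableEq B]
  [DecidableEq U]

omit [Fintype J] [Fintype B] in
private lemma REC_cnt_pos (F : Finset ((J × U) × B)) (p : (J × U) × B) (hp : p ∈ F) :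
    (0 : ℝ) < cnt F (p.1.1, p.2) := by
  have : 0 < cnt F (p.1.1, p.2) := by
    rw [cnt, Finset.card_pos]
    exact ⟨p.1.2, by simpa using hp⟩
  exact_mod_cast this

private lemma REC_ratio (π : J × B → Perm U) (F : Finset ((J × U) × B))
    (S : Finset (J × B → Perm U)) (hS : S ⊆ Gam F) :
    (S.card : ℝ) ≤ (∏ p ∈ F, ((vals π S p).card : ℝ) / cnt F (p.1.1, p.2)) *
      (Real.exp F.card * (Gam F).card) := by
  have h1 : (S.card : ℝ) ≤ ∏ p ∈ F, ((vals π S p).card : ℝ) := by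
    exact_mod_cast card_le_prod_vals π F S hS
  refine h1.trans ?_
  rw [Finset.prod_div_distrib, div_mul_eq_mul_div,
    le_div_iff₀ (Finset.prod_pos fun p hp => REC_cnt_pos F p hp)]
  exact mul_le_mul_of_nonneg_left (prod_cnt_le F) (Finset.prod_nonneg fun _ _ => by positivity)

omit [Fintype J] [Fintype B] in
private lemma REC_fiber (F : Finset ((J × U) × B)) (κ : J × B) :
    (F.filter fun p => (p.1.1, p.2) = κ).card = cnt F κ := by
  rw [cnt]
  refine Finset.card_bij (fun p _ => p.1.2) ?_ ?_ ?_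
  · rintro ⟨⟨j, u⟩, b⟩ hp
    rw [Finset.mem_filter] at hp
    obtain ⟨hp1, rfl⟩ := hp
    simpa using hp1
  · rintro ⟨⟨j, u⟩, b⟩ hp ⟨⟨j', u'⟩, b'⟩ hp' huu
    rw [Finset.mem_filter] at hp hp'
    obtain ⟨_, rfl⟩ := hp
    obtain ⟨_, h2⟩ := hp'
    simp only [Prod.mk.injEq] at h2
    obtain ⟨rfl, rfl⟩ := h2
    simp only at huu
    rw [huu]
  · intro u hu
    exact ⟨((κ.1, u), κ.2), by simpa using hu, rfl⟩

private lemma REC_small (F : Finset ((J × U) × B)) (θ : ℝ) (hθ : 0 ≤ θ) :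
    ((F.filter fun p => (cnt F (p.1.1, p.2) : ℝ) < θ).card : ℝ) ≤
      Fintype.card J * Fintype.card B * θ := by
  classical
  rw [Finset.card_eq_sum_card_fiberwise (t := Finset.univ) (f := fun p => (p.1.1, p.2))
    (fun _ _ => Finset.mem_univ _)]
  push_cast
  have h6 : ∀ κ : J × B, (((F.filter fun p => (cnt F (p.1.1, p.2) : ℝ) < θ).filter
      fun p => (p.1.1, p.2) = κ).card : ℝ) ≤ θ := by
    intro κ
    by_cases hlt : (cnt F κ : ℝ) < θ
    · refine le_trans ?_ hlt.le
      rw [← REC_fiber F κ]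
      have h7 : ((F.filter fun p => (cnt F (p.1.1, p.2) : ℝ) < θ).filter
          fun p => (p.1.1, p.2) = κ) ⊆ F.filter fun p => (p.1.1, p.2) = κ :=
        Finset.filter_subset_filter _ (Finset.filter_subset _ _)
      exact_mod_cast Finset.card_le_card h7
    · have h8 : ((F.filter fun p => (cnt F (p.1.1, p.2) : ℝ) < θ).filter
          fun p => (p.1.1, p.2) = κ) = ∅ := by
        rw [Finset.eq_empty_iff_forall_notMem]
        intro p hp
        rw [Finset.mem_filter, Finset.mem_filter] at hp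
        obtain ⟨⟨_, h9⟩, h10⟩ := hp
        rw [h10] at h9
        exact hlt h9
      rw [h8]
      simpa using hθ
  calc _ ≤ ∑ _κ : J × B, θ := Finset.sum_le_sum fun κ _ => h6 κ
    _ = _ := by
      rw [Finset.sum_const, Finset.card_univ, nsmul_eq_mul, Fintype.card_prod]
      push_cast
      ring

end

theorem t_REC : S_REC := by
  intro J B U C _ _ _ _ _ _ _ _ σ adj ν h hν hh h64 hmix c F π ρ S1 S2 hF hS1 hS2 hTF
  classical
  rcases S1.eq_empty_or_nonempty with rfl | hS1ne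
  · rw [Finset.card_empty, Nat.cast_zero, zero_mul]
    positivity
  rcases S2.eq_empty_or_nonempty with rfl | hS2ne
  · rw [Finset.card_empty, Nat.cast_zero, mul_zero]
    positivity
  rcases F.eq_empty_or_nonempty with hF0 | hFne
  · have h1 : (S1.card : ℝ) ≤ (Gam F).card := by exact_mod_cast Finset.card_le_card hS1
    have h2 : (S2.card : ℝ) ≤ (Gam (shiftF σ c F)).card := by
      exact_mod_cast Finset.card_le_card hS2
    have h3 : Real.exp (2 * F.card + F.card / 2 * Real.log (64 * h ^ 2 * ν)) = 1 := by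
      rw [hF0]
      simp
    rw [h3, one_mul]
    exact mul_le_mul h1 h2 (by positivity) (by positivity)
  have hU : 0 < Fintype.card U := by
    obtain ⟨p, _⟩ := hFne
    exact Fintype.card_pos_iff.2 ⟨p.1.2⟩
  have hU' : (0 : ℝ) < Fintype.card U := by exact_mod_cast hU
  obtain ⟨θ, hθ⟩ : ∃ θ : ℝ, θ = Fintype.card U / (8 * h) := ⟨_, rfl⟩
  have hh0 : 0 < h := by linarith
  have hθ0 : 0 < θ := by
    rw [hθ]
    positivity
  -- the shift
  obtain ⟨f, hf⟩ : ∃ f : (J × U) × B → (J × U) × B, f = fun p => (p.1, σ c p.2) := ⟨_, rfl⟩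
  have hfinj : Function.Injective f := by
    rw [hf]
    rintro ⟨i, b⟩ ⟨i', b'⟩ hpp
    simp only [Prod.mk.injEq] at hpp
    obtain ⟨rfl, h2⟩ := hpp
    rw [(σ c).injective h2]
  obtain ⟨F', hF'⟩ : ∃ F' : Finset ((J × U) × B), F' = shiftF σ c F := ⟨_, rfl⟩
  have hF'im : F' = F.image f := by
    rw [hF', hf]
    unfold shiftF
    ext p
    simp only [Finset.mem_image]
  have hF'card : F'.card = F.card := by
    rw [hF'im, Finset.card_image_of_injective _ hfinj]
  rw [← hF'] at hS2 ⊢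
  -- the two ratios
  obtain ⟨a, ha⟩ : ∃ a : (J × U) × B → ℝ, a = fun p => ((vals π S1 p).card : ℝ) /
    cnt F (p.1.1, p.2) := ⟨_, rfl⟩
  obtain ⟨b, hb⟩ : ∃ b : (J × U) × B → ℝ, b = fun p => ((vals ρ S2 p).card : ℝ) /
    cnt F' (p.1.1, p.2) := ⟨_, rfl⟩
  have hr1 : (S1.card : ℝ) ≤ (∏ p ∈ F, a p) * (Real.exp F.card * (Gam F).card) := by
    rw [ha]
    exact REC_ratio π F S1 hS1
  have hr2 : (S2.card : ℝ) ≤ (∏ p ∈ F, b (f p)) * (Real.exp F.card * (Gam F').card) := by
    have h1 := REC_ratio ρ F' S2 hS2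
    rw [hF'card] at h1
    have h2 : ∏ p ∈ F, b (f p) = ∏ p ∈ F', ((vals ρ S2 p).card : ℝ) / cnt F' (p.1.1, p.2) := by
      rw [hb, hF'im, Finset.prod_image fun x _ y _ hxy => hfinj hxy]
    rw [h2]
    exact h1
  have hfF : ∀ p ∈ F, f p ∈ F' := fun p hp => by
    rw [hF'im]
    exact Finset.mem_image_of_mem f hp
  have ha0 : ∀ p, 0 ≤ a p := fun p => by
    rw [ha]
    positivity
  have hb0 : ∀ p, 0 ≤ b p := fun p => by
    rw [hb]
    positivity
  have ha1 : ∀ p ∈ F, a p ≤ 1 := fun p hp => by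
    rw [ha]
    simp only
    rw [div_le_one (REC_cnt_pos F p hp)]
    exact_mod_cast vals_card_le π F S1 hS1 p hp
  have hb1 : ∀ p ∈ F', b p ≤ 1 := fun p hp => by
    rw [hb]
    simp only
    rw [div_le_one (REC_cnt_pos F' p hp)]
    exact_mod_cast vals_card_le ρ F' S2 hS2 p hp
  -- the good elements
  obtain ⟨X, hX⟩ : ∃ X : Finset ((J × U) × B), X = F.filter fun p =>
    (cnt F (p.1.1, p.2) : ℝ) < θ := ⟨_, rfl⟩
  obtain ⟨Y, hY⟩ : ∃ Y : Finset ((J × U) × B), Y = F.filter fun p =>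
    (cnt F' ((f p).1.1, (f p).2) : ℝ) < θ := ⟨_, rfl⟩
  obtain ⟨Z, hZ⟩ : ∃ Z : Finset ((J × U) × B), Z = F \ (X ∪ Y) := ⟨_, rfl⟩
  have hbound : (Fintype.card J : ℝ) * Fintype.card B * θ ≤ F.card / 4 := by
    have h1 : (Fintype.card J : ℝ) * Fintype.card B * θ =
        ((Fintype.card (J × U) * Fintype.card B : ℝ) / (2 * h)) / 4 := by
      rw [hθ, Fintype.card_prod]
      push_cast
      field_simp
      ring
    rw [h1]
    linarith
  have hXc : (X.card : ℝ) ≤ F.card / 4 := by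
    rw [hX]
    exact (REC_small F θ hθ0.le).trans hbound
  have hYc : (Y.card : ℝ) ≤ F.card / 4 := by
    refine le_trans ?_ ((REC_small F' θ hθ0.le).trans hbound)
    have h1 : Y.image f ⊆ F'.filter fun p => (cnt F' (p.1.1, p.2) : ℝ) < θ := by
      intro p hp
      rw [Finset.mem_image] at hp
      obtain ⟨p0, hp0, rfl⟩ := hp
      rw [hY, Finset.mem_filter] at hp0
      rw [Finset.mem_filter]
      exact ⟨hfF p0 hp0.1, hp0.2⟩
    have h2 := Finset.card_le_card h1
    rw [Finset.card_image_of_injective _ hfinj] at h2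
    exact_mod_cast h2
  have hZc : (F.card : ℝ) / 2 ≤ Z.card := by
    have h1 : F.card ≤ Z.card + (X ∪ Y).card := by
      rw [hZ]
      exact Finset.card_le_card_sdiff_add_card
    have h2 : (X ∪ Y).card ≤ X.card + Y.card := Finset.card_union_le _ _
    have h3 : (F.card : ℝ) ≤ Z.card + (X.card + Y.card) := by
      exact_mod_cast h1.trans (by omega)
    linarith
  -- the quotients at the good elements
  obtain ⟨A0, hA0⟩ : ∃ A0 : ℝ, A0 = 64 * h ^ 2 * ν := ⟨_, rfl⟩
  have hA0pos : 0 < A0 := by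
    rw [hA0]
    positivity
  rw [← hA0] at h64 ⊢
  have hgood : ∀ p ∈ Z, a p * b (f p) ≤ A0 := by
    intro p hp
    rw [hZ, Finset.mem_sdiff, Finset.mem_union, hX, hY, Finset.mem_filter, Finset.mem_filter] at hp
    obtain ⟨hpF, hpn⟩ := hp
    push Not at hpn
    have hc1 : θ ≤ (cnt F (p.1.1, p.2) : ℝ) := hpn.1 hpF
    have hc2 : θ ≤ (cnt F' ((f p).1.1, (f p).2) : ℝ) := hpn.2 hpF
    have h1 : ((vals π S1 p).card : ℝ) * (vals ρ S2 (f p)).card ≤
        ν * (Fintype.card U) ^ 2 := by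
      apply hmix
      intro x hx y hy hadj
      unfold vals at hx hy
      rw [Finset.mem_image] at hx hy
      obtain ⟨g1, hg1, rfl⟩ := hx
      obtain ⟨g2, hg2, rfl⟩ := hy
      refine hTF g1 hg1 g2 hg2 p.1.1 p.1.2 p.2 (σ c p.2) ⟨c, rfl, ?_⟩
      rw [hf] at hadj
      exact hadj
    have h2 : a p * b (f p) = ((vals π S1 p).card : ℝ) * (vals ρ S2 (f p)).card /
        ((cnt F (p.1.1, p.2) : ℝ) * cnt F' ((f p).1.1, (f p).2)) := by
      rw [ha, hb]
      exact div_mul_div_comm _ _ _ _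
    rw [h2]
    have h3 : θ * θ ≤ (cnt F (p.1.1, p.2) : ℝ) * cnt F' ((f p).1.1, (f p).2) :=
      mul_le_mul hc1 hc2 hθ0.le (hθ0.le.trans hc1)
    calc _ ≤ ν * (Fintype.card U) ^ 2 / (θ * θ) :=
        div_le_div₀ (by positivity) h1 (by positivity) h3
      _ = A0 := by
        rw [hA0, hθ]
        field_simp
        ring
  have hprod : ∏ p ∈ F, (a p * b (f p)) ≤ A0 ^ Z.card := by
    have hZF : Z ⊆ F := by
      rw [hZ]
      exact Finset.sdiff_subset
    rw [← Finset.prod_sdiff hZF]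
    have h1 : ∏ p ∈ F \ Z, (a p * b (f p)) ≤ 1 := by
      refine Finset.prod_le_one (fun p _ => mul_nonneg (ha0 p) (hb0 _)) fun p hp => ?_
      have hpF := (Finset.mem_sdiff.1 hp).1
      calc a p * b (f p) ≤ 1 * 1 := mul_le_mul (ha1 p hpF) (hb1 _ (hfF p hpF)) (hb0 _) zero_le_one
        _ = 1 := one_mul 1
    have h2 : ∏ p ∈ Z, (a p * b (f p)) ≤ A0 ^ Z.card := by
      calc _ ≤ ∏ _p ∈ Z, A0 :=
          Finset.prod_le_prod (fun p _ => mul_nonneg (ha0 p) (hb0 _)) hgood
        _ = _ := Finset.prod_const _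
    calc _ ≤ 1 * A0 ^ Z.card := mul_le_mul h1 h2
          (Finset.prod_nonneg fun p _ => mul_nonneg (ha0 p) (hb0 _)) zero_le_one
      _ = _ := one_mul _
  have hpow : A0 ^ Z.card ≤ Real.exp (F.card / 2 * Real.log A0) := by
    rw [← Real.rpow_natCast, Real.rpow_def_of_pos hA0pos, mul_comm]
    apply Real.exp_le_exp.2
    have h1 : Real.log A0 ≤ 0 := Real.log_nonpos hA0pos.le h64
    nlinarith
  have hpa : 0 ≤ ∏ p ∈ F, a p := Finset.prod_nonneg fun p _ => ha0 p
  have hpb : 0 ≤ ∏ p ∈ F, b (f p) := Finset.prod_nonneg fun p _ => hb0 _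
  calc (S1.card : ℝ) * S2.card ≤ ((∏ p ∈ F, a p) * (Real.exp F.card * (Gam F).card)) *
        ((∏ p ∈ F, b (f p)) * (Real.exp F.card * (Gam F').card)) :=
        mul_le_mul hr1 hr2 (by positivity) (by positivity)
    _ = (∏ p ∈ F, (a p * b (f p))) * (Real.exp F.card * Real.exp F.card) *
        ((Gam F).card * (Gam F').card) := by
        rw [Finset.prod_mul_distrib]
        ring
    _ ≤ Real.exp (F.card / 2 * Real.log A0) * (Real.exp F.card * Real.exp F.card) *
        ((Gam F).card * (Gam F').card) :=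
        mul_le_mul_of_nonneg_right (mul_le_mul_of_nonneg_right (hprod.trans hpow)
          (by positivity)) (by positivity)
    _ = _ := by
        rw [← Real.exp_add, ← Real.exp_add]
        congr 2
        ring

end Pool.Agent.ACX
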