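import Mathlib
import Pool.Agent.ACX.Stmts
import Pool.Agent.Lib_helper21.TS.Select

/-!
# Module SEL: a colouring of the time segments for the block graph
-/

set_option autoImplicit false
set_option linter.unusedSectionVars false

namespace Pool.Agent.ACX

open Finset Equiv Pool.Agent.TS
open Pool.Agent.RAC (Simp Sparse edg ES S_EXP)

section Sel

variable {J B U C : Type} [Fintype J] [Fintype B] [Fintype U] [Fintype C] [DecidableEq J]
  [DecidableEq B] [DecidableEq U] [DecidableEq C] {r : ℕ}

/-- Counting the incidences of a family of sets of entries. -/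
private lemma sel_count (hX : Fin r → Finset ((J × U) × B)) :
    ∑ p : (J × U) × B, (((Finset.univ : Finset (Fin r)).filter fun j => p ∈ hX j).card : ℝ) =
      ∑ j, ((hX j).card : ℝ) := by
  have h1 : ∀ p : (J × U) × B, (((Finset.univ : Finset (Fin r)).filter fun j => p ∈ hX j).card : ℝ) =
      ∑ j, if p ∈ hX j then (1 : ℝ) else 0 := by
    intro p
    rw [Finset.card_filter]
    push_cast
    rfl
  simp_rw [h1]
  rw [Finset.sum_comm]
  refine Finset.sum_congr rfl fun j _ => ?_
  simp

/-- The shift of the entries by a label. -/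
private def selShift (σ : C → Perm B) (c : C) : (J × U) × B ≃ (J × U) × B :=
  (Equiv.refl (J × U)).prodCongr (σ c)

/-- Counting the incidences after a shift. -/
private lemma sel_count_shift (σ : C → Perm B) (c : C) (hY : Fin r → Finset ((J × U) × B)) :
    ∑ p : (J × U) × B, (((Finset.univ : Finset (Fin r)).filter fun j =>
      (p.1, σ c p.2) ∈ hY j).card : ℝ) = ∑ j, ((hY j).card : ℝ) := by
  rw [← sel_count hY]
  exact Equiv.sum_comp (selShift σ c)
    (fun p : (J × U) × B => (((Finset.univ : Finset (Fin r)).filter fun j => p ∈ hY j).card : ℝ))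

/-- The blocks of a set of entries. -/
private def selBlk (S : Finset ((J × U) × B)) (i : J × U) : Finset B :=
  (Finset.univ : Finset B).filter fun b => (i, b) ∈ S

private lemma sel_blk_sum (S : Finset ((J × U) × B)) :
    ∑ i, (((selBlk S i).card : ℕ) : ℝ) = (S.card : ℝ) := by
  have h1 : ∀ i, (((selBlk S i).card : ℕ) : ℝ) = ∑ b, if (i, b) ∈ S then (1 : ℝ) else 0 := by
    intro i
    unfold selBlk
    rw [Finset.card_filter]
    push_cast
    rfl
  simp_rw [h1]
  rw [← Fintype.sum_prod_type' (f := fun i b => if (i, b) ∈ S then (1 : ℝ) else 0)]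
  simp

private lemma sel_blk_le (S : Finset ((J × U) × B)) (i : J × U) :
    (selBlk S i).card ≤ S.card := by
  refine Finset.card_le_card_of_injOn (fun b => (i, b)) ?_ ?_
  · intro b hb
    have := (Finset.mem_filter.1 (Finset.mem_coe.1 hb)).2
    exact Finset.mem_coe.2 this
  · intro b _ b' _ h
    exact (Prod.ext_iff.1 h).2

/-- The number of the pairs with both ends in a segment. -/
private lemma sel_edges (σ : C → Perm B) (M0 L : ℕ) (hsp : Sparse σ M0)
    (hML : M0 * L ≤ Fintype.card B) (S T : Finset ((J × U) × B)) (hS : S.card ≤ L)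
    (hT : T.card ≤ L) :
    ∑ p : (J × U) × B, ∑ c : C, (if p ∈ S then (1 : ℝ) else 0) *
      (if (p.1, σ c p.2) ∈ T then (1 : ℝ) else 0) ≤ 4 * ((S.card : ℝ) + T.card) := by
  classical
  have h1 : ∑ p : (J × U) × B, ∑ c : C, (if p ∈ S then (1 : ℝ) else 0) *
      (if (p.1, σ c p.2) ∈ T then (1 : ℝ) else 0) =
      ∑ i : J × U, ((edg σ (selBlk S i) (selBlk T i) : ℕ) : ℝ) := by
    rw [Fintype.sum_prod_type]
    refine Finset.sum_congr rfl fun i _ => ?_
    unfold edg
    rw [Finset.card_filter]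
    push_cast
    rw [Fintype.sum_prod_type]
    refine Finset.sum_congr rfl fun b _ => Finset.sum_congr rfl fun c _ => ?_
    have hPQ : ∀ (P Q R : Prop) [Decidable P] [Decidable Q] [Decidable R], (R ↔ P ∧ Q) →
        (if P then (1 : ℝ) else 0) * (if Q then 1 else 0) = if R then 1 else 0 := by
      intro P Q R _ _ _ hR
      by_cases hP : P <;> by_cases hQ : Q <;> simp [hP, hQ, hR]
    apply hPQ
    unfold selBlk
    rw [Finset.mem_filter, Finset.mem_filter]
    exact ⟨fun h => ⟨h.1.2, h.2.2⟩, fun h => ⟨⟨Finset.mem_univ _, h.1⟩, Finset.mem_univ _, h.2⟩⟩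
  rw [h1, ← sel_blk_sum S, ← sel_blk_sum T, ← Finset.sum_add_distrib, Finset.mul_sum]
  refine Finset.sum_le_sum fun i _ => ?_
  have h2 := hsp (selBlk S i) (selBlk T i)
    ((Nat.mul_le_mul_left M0 ((sel_blk_le S i).trans hS)).trans hML)
    ((Nat.mul_le_mul_left M0 ((sel_blk_le T i).trans hT)).trans hML)
  have h3 : edg σ (selBlk S i) (selBlk T i) ≤ 4 * ((selBlk S i).card + (selBlk T i).card) :=
    h2.trans (Nat.mul_le_mul_left 4 (max_le (Nat.le_add_right _ _) (Nat.le_add_left _ _)))
  exact_mod_cast h3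

end Sel

theorem t_SEL : S_SEL := by
  classical
  intro J B U C _ _ _ _ _ _ _ _ σ M0 L r hX hY h hsp hML hh hC hC0 hLX hLY htot
  have h0 : 0 < h := by linarith
  set t : ℝ := (Fintype.card (J × U) * Fintype.card B : ℝ) / (2 * h) with ht
  set SX : (J × U) × B → Finset (Fin r) := fun p => Finset.univ.filter fun j => p ∈ hX j with hSX
  set SY : (J × U) × B → C → Finset (Fin r) := fun p c =>
    Finset.univ.filter fun j => (p.1, σ c p.2) ∈ hY j with hSY
  set good : (Fin r → Bool) → C → Finset ((J × U) × B) := fun χ c => Finset.univ.filter fun p =>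
    (∀ j ∈ SX p, χ j = true) ∧ ∀ j ∈ SY p c, χ j = false with hgood
  -- it suffices to find many good entries
  suffices hex : ∃ (χ : Fin r → Bool) (c : C), t ≤ ((good χ c).card : ℝ) by
    obtain ⟨χ, c, hχ⟩ := hex
    obtain ⟨F, hF, hFc⟩ := Finset.exists_subset_card_eq (Nat.ceil_le.2 hχ)
    refine ⟨χ, c, F, hFc, ?_, ?_⟩
    · intro p hp j hj
      have h1 := (Finset.mem_filter.1 (hF hp)).2.1
      exact h1 j (Finset.mem_filter.2 ⟨Finset.mem_univ _, hj⟩)
    · intro p hp j hj
      have h1 := (Finset.mem_filter.1 (hF hp)).2.2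
      exact h1 j (Finset.mem_filter.2 ⟨Finset.mem_univ _, hj⟩)
  by_contra hcon
  push Not at hcon
  have hCr : (0 : ℝ) < Fintype.card C := by exact_mod_cast hC0
  have : Nonempty C := Fintype.card_pos_iff.1 hC0
  -- upper bound of the sum
  have hup : ∑ χ : Fin r → Bool, ∑ c : C, ((good χ c).card : ℝ) <
      (2 : ℝ) ^ r * (Fintype.card C * t) := by
    have h1 : ∑ χ : Fin r → Bool, ∑ c : C, ((good χ c).card : ℝ) <
        ∑ _χ : Fin r → Bool, ∑ _c : C, t :=
      Finset.sum_lt_sum_of_nonempty Finset.univ_nonempty fun χ _ =>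
        Finset.sum_lt_sum_of_nonempty Finset.univ_nonempty fun c _ => hcon χ c
    refine h1.trans_le (le_of_eq ?_)
    simp only [Finset.sum_const, Finset.card_univ, nsmul_eq_mul, Fintype.card_fun,
      Fintype.card_bool, Fintype.card_fin]
    push_cast
    ring
  -- the sum, by entries and labels
  have hsw : ∑ χ : Fin r → Bool, ∑ c : C, ((good χ c).card : ℝ) =
      ∑ p : (J × U) × B, ∑ c : C, ((Finset.univ.filter fun χ : Fin r → Bool =>
        (∀ j ∈ SX p, χ j = true) ∧ ∀ j ∈ SY p c, χ j = false).card : ℝ) := by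
    have e1 : ∀ χ c, ((good χ c).card : ℝ) = ∑ p : (J × U) × B,
        if (∀ j ∈ SX p, χ j = true) ∧ (∀ j ∈ SY p c, χ j = false) then (1 : ℝ) else 0 := by
      intro χ c
      rw [hgood]
      simp only [Finset.card_filter]
      push_cast
      rfl
    have e2 : ∀ p c, ((Finset.univ.filter fun χ : Fin r → Bool =>
        (∀ j ∈ SX p, χ j = true) ∧ ∀ j ∈ SY p c, χ j = false).card : ℝ) =
        ∑ χ : Fin r → Bool,
          if (∀ j ∈ SX p, χ j = true) ∧ (∀ j ∈ SY p c, χ j = false) then (1 : ℝ) else 0 := by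
      intro p c
      rw [Finset.card_filter]
      push_cast
      rfl
    simp_rw [e1, e2]
    have e3 : ∀ χ : Fin r → Bool, ∑ c : C, ∑ p : (J × U) × B,
        (if (∀ j ∈ SX p, χ j = true) ∧ (∀ j ∈ SY p c, χ j = false) then (1 : ℝ) else 0) =
        ∑ p : (J × U) × B, ∑ c : C,
        (if (∀ j ∈ SX p, χ j = true) ∧ (∀ j ∈ SY p c, χ j = false) then (1 : ℝ) else 0) :=
      fun χ => Finset.sum_comm
    simp_rw [e3]
    rw [Finset.sum_comm]
    refine Finset.sum_congr rfl fun p _ => ?_
    rw [Finset.sum_comm]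
  -- lower bound
  have hlow : (2 : ℝ) ^ r * (∑ p : (J × U) × B, ∑ c : C,
      (((1 / 2 : ℝ) ^ ((SX p).card + (SY p c).card)) -
        (if Disjoint (SX p) (SY p c) then 0 else 1))) ≤
      ∑ p : (J × U) × B, ∑ c : C, ((Finset.univ.filter fun χ : Fin r → Bool =>
        (∀ j ∈ SX p, χ j = true) ∧ ∀ j ∈ SY p c, χ j = false).card : ℝ) := by
    rw [Finset.mul_sum]
    refine Finset.sum_le_sum fun p _ => ?_
    rw [Finset.mul_sum]
    exact Finset.sum_le_sum fun c _ => card_colourings _ _
  -- the main part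
  have hcX : ∑ p : (J × U) × B, ((SX p).card : ℝ) = ∑ j, ((hX j).card : ℝ) := sel_count hX
  have hcY : ∀ c, ∑ p : (J × U) × B, ((SY p c).card : ℝ) = ∑ j, ((hY j).card : ℝ) :=
    fun c => sel_count_shift σ c hY
  have htot' : ∑ j, ((hX j).card : ℝ) + ∑ j, ((hY j).card : ℝ) ≤
      Fintype.card (J × U) * Fintype.card B * Real.logb 2 h := by
    rw [← Finset.sum_add_distrib]
    push_cast at htot
    exact htot
  have hcardP : (Fintype.card ((J × U) × B) : ℝ) = Fintype.card (J × U) * Fintype.card B := by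
    rw [Fintype.card_prod (J × U) B]
    push_cast
    rfl
  have hl2 := Real.log_pos (show (1 : ℝ) < 2 by norm_num)
  have hmain : 2 * (Fintype.card C * t) ≤
      ∑ p : (J × U) × B, ∑ c : C, (1 / 2 : ℝ) ^ ((SX p).card + (SY p c).card) := by
    have h1 : ∑ p : (J × U) × B, ∑ c : C, (1 / h) * (1 - ((((SX p).card + (SY p c).card : ℕ) : ℝ)
        - Real.logb 2 h) * Real.log 2) ≤
        ∑ p : (J × U) × B, ∑ c : C, (1 / 2 : ℝ) ^ ((SX p).card + (SY p c).card) :=
      Finset.sum_le_sum fun p _ => Finset.sum_le_sum fun c _ => half_pow_ge h hh _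
    refine le_trans ?_ h1
    have h2 : ∀ (p : (J × U) × B) (c : C), (1 / h) *
        (1 - ((((SX p).card + (SY p c).card : ℕ) : ℝ) - Real.logb 2 h) * Real.log 2) =
        (1 / h) * (1 + Real.logb 2 h * Real.log 2) - (1 / h) * Real.log 2 * (SX p).card -
          (1 / h) * Real.log 2 * (SY p c).card := by
      intro p c
      push_cast
      ring
    have h3 : ∑ p : (J × U) × B, ∑ c : C, ((1 / h) * (1 + Real.logb 2 h * Real.log 2) -
        (1 / h) * Real.log 2 * (SX p).card - (1 / h) * Real.log 2 * (SY p c).card) =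
        ∑ c : C, ∑ p : (J × U) × B, ((1 / h) * (1 + Real.logb 2 h * Real.log 2) -
        (1 / h) * Real.log 2 * (SX p).card - (1 / h) * Real.log 2 * (SY p c).card) :=
      Finset.sum_comm
    have h4 : ∀ c : C, ∑ p : (J × U) × B, ((1 / h) * (1 + Real.logb 2 h * Real.log 2) -
        (1 / h) * Real.log 2 * (SX p).card - (1 / h) * Real.log 2 * (SY p c).card) =
        Fintype.card (J × U) * Fintype.card B * ((1 / h) * (1 + Real.logb 2 h * Real.log 2)) -
          (1 / h) * Real.log 2 * (∑ j, ((hX j).card : ℝ) + ∑ j, ((hY j).card : ℝ)) := by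
      intro c
      rw [Finset.sum_sub_distrib, Finset.sum_sub_distrib, Finset.sum_const, Finset.card_univ,
        nsmul_eq_mul, ← Finset.mul_sum, ← Finset.mul_sum, hcX, hcY c, hcardP]
      ring
    simp_rw [h2]
    rw [h3]
    simp_rw [h4]
    rw [Finset.sum_const, Finset.card_univ, nsmul_eq_mul]
    have h5 : 2 * ((Fintype.card C : ℝ) * t) =
        Fintype.card C * (Fintype.card (J × U) * Fintype.card B * (1 / h)) := by
      rw [ht]
      field_simp
    rw [h5]
    apply mul_le_mul_of_nonneg_left _ hCr.le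
    have h6 : (1 / h) * Real.log 2 * (∑ j, ((hX j).card : ℝ) + ∑ j, ((hY j).card : ℝ)) ≤
        (1 / h) * Real.log 2 * (Fintype.card (J × U) * Fintype.card B * Real.logb 2 h) :=
      mul_le_mul_of_nonneg_left htot' (by positivity)
    have h7 : Fintype.card (J × U) * Fintype.card B * ((1 / h) * (1 + Real.logb 2 h * Real.log 2)) =
        Fintype.card (J × U) * Fintype.card B * (1 / h) +
        (1 / h) * Real.log 2 * (Fintype.card (J × U) * Fintype.card B * Real.logb 2 h) := by
      ring
    linarith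
  -- the bad pairs
  have hbad : ∑ p : (J × U) × B, ∑ c : C, (if Disjoint (SX p) (SY p c) then (0 : ℝ) else 1) ≤
      Fintype.card C * t := by
    have h1 : ∀ (p : (J × U) × B) (c : C), (if Disjoint (SX p) (SY p c) then (0 : ℝ) else 1) ≤
        ∑ j, (if p ∈ hX j then (1 : ℝ) else 0) * (if (p.1, σ c p.2) ∈ hY j then (1 : ℝ) else 0) := by
      intro p c
      split_ifs with hd
      · exact Finset.sum_nonneg fun j _ => by positivity
      · rw [Finset.not_disjoint_iff] at hd
        obtain ⟨j, hj1, hj2⟩ := hd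
        simp only [hSX, hSY, Finset.mem_filter, Finset.mem_univ, true_and] at hj1 hj2
        refine le_trans ?_ (Finset.single_le_sum (f := fun j =>
          (if p ∈ hX j then (1 : ℝ) else 0) * (if (p.1, σ c p.2) ∈ hY j then (1 : ℝ) else 0))
          (fun j _ => by positivity) (Finset.mem_univ j))
        simp [hj1, hj2]
    have h2 : ∑ p : (J × U) × B, ∑ c : C, ∑ j, (if p ∈ hX j then (1 : ℝ) else 0) *
        (if (p.1, σ c p.2) ∈ hY j then (1 : ℝ) else 0) =
        ∑ j, ∑ p : (J × U) × B, ∑ c : C, (if p ∈ hX j then (1 : ℝ) else 0) *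
        (if (p.1, σ c p.2) ∈ hY j then (1 : ℝ) else 0) := by
      have e1 : ∀ p : (J × U) × B, ∑ c : C, ∑ j, (if p ∈ hX j then (1 : ℝ) else 0) *
          (if (p.1, σ c p.2) ∈ hY j then (1 : ℝ) else 0) =
          ∑ j, ∑ c : C, (if p ∈ hX j then (1 : ℝ) else 0) *
          (if (p.1, σ c p.2) ∈ hY j then (1 : ℝ) else 0) := fun p => Finset.sum_comm
      simp_rw [e1]
      exact Finset.sum_comm
    calc ∑ p : (J × U) × B, ∑ c : C, (if Disjoint (SX p) (SY p c) then (0 : ℝ) else 1)
        ≤ ∑ p : (J × U) × B, ∑ c : C, ∑ j, (if p ∈ hX j then (1 : ℝ) else 0) *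
          (if (p.1, σ c p.2) ∈ hY j then (1 : ℝ) else 0) :=
          Finset.sum_le_sum fun p _ => Finset.sum_le_sum fun c _ => h1 p c
      _ = ∑ j, ∑ p : (J × U) × B, ∑ c : C, (if p ∈ hX j then (1 : ℝ) else 0) *
          (if (p.1, σ c p.2) ∈ hY j then (1 : ℝ) else 0) := h2
      _ ≤ ∑ j, 4 * (((hX j).card : ℝ) + (hY j).card) :=
          Finset.sum_le_sum fun j _ => sel_edges σ M0 L hsp hML (hX j) (hY j) (hLX j) (hLY j)
      _ = 4 * (∑ j, ((hX j).card : ℝ) + ∑ j, ((hY j).card : ℝ)) := by
          rw [← Finset.mul_sum, Finset.sum_add_distrib]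
      _ ≤ 4 * (Fintype.card (J × U) * Fintype.card B * Real.logb 2 h) :=
          mul_le_mul_of_nonneg_left htot' (by norm_num)
      _ = (8 * h * Real.logb 2 h) * t := by
          rw [ht]
          field_simp
          ring
      _ ≤ Fintype.card C * t := by
          apply mul_le_mul_of_nonneg_right hC
          rw [ht]
          positivity
  have hfin : Fintype.card C * t ≤ ∑ p : (J × U) × B, ∑ c : C,
      (((1 / 2 : ℝ) ^ ((SX p).card + (SY p c).card)) -
        (if Disjoint (SX p) (SY p c) then 0 else 1)) := by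
    simp_rw [Finset.sum_sub_distrib]
    linarith
  have h2r : (0 : ℝ) < 2 ^ r := by positivity
  have h9 := mul_le_mul_of_nonneg_left hfin h2r.le
  rw [hsw] at hup
  linarith

end Pool.Agent.ACX
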