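import Mathlib
import Pool.Agent.ACX.Sel
import Pool.Agent.ACX.Rec
import Pool.Agent.ACX.Cnt
import Pool.Agent.ACX.Ine
import Pool.Agent.ACX.Num
import Pool.Agent.ACX.Bpm
import Pool.Agent.ACX.Bnd
import Pool.Agent.ACX.Prc
import Pool.Agent.RAC.Perm
import Pool.Agent.RAC.Lift
import Pool.Agent.RAC.Exp

/-!
# The main theorem
-/

set_option autoImplicit false

namespace Pool.Agent.ACX

open Pool.Agent.ACC

theorem t_MAIN : S_MAIN :=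
  t_PRC (t_BND (t_BPM (t_NUM (t_INE (t_CNT t_SEL t_REC))) (RAC.t_EXP (RAC.t_LIFT RAC.t_PERM))))

/-- The main theorem. -/
theorem main_bound (κ : ℕ) (ε : ℝ) (hε : 0 < ε) : ∃ c : ℝ, 0 < c ∧ ∃ s₀ : ℕ, ∀ s : ℕ, s₀ ≤ s →
    ∃ (n : ℕ) (δ : Fin n → ℕ), 2 * n + ∑ v, δ v = 2 * s ∧
      ∀ (Q A Γ : Type) [Fintype Q] [Fintype A] [Fintype Γ] (M : Machine n Q A Γ) (g : ℕ)
        (f : A → ℝ) (φ T : ℝ), 1 ≤ g → (Fintype.card Q : ℝ) ≤ 2 ^ ((s : ℝ) ^ (1 - ε)) →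
        Fintype.card A ≤ s ^ κ → Fintype.card Γ ≤ s ^ (κ * g) → (∀ a, 0 ≤ f a) → 0 < φ →
        (Nat.card {a : A // f a < φ * g} : ℝ) * g ≤ (s : ℝ) ^ (1 - ε) →
        M.Recognises f T δ → c * s * min (Real.log s) (Real.log φ) ≤ T :=
  t_MAIN κ ε hε

end Pool.Agent.ACX
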